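import Pool.Agent.Helper65K9.SR.Defs

/-!
[EX] The design exists for every `d` (MP_9571c3_co, leaf by helper54).
-/

set_option autoImplicit false

namespace Pool.Agent.Helper65K9.SR

open Finset

namespace Ex54

/-- four times a cube is at most a power of two -/
theorem cube_le (n : ℕ) (hn : 16 ≤ n) : 4 * n ^ 3 ≤ 2 ^ n := by
  induction n, hn using Nat.le_induction with
  | base => norm_num
  | succ n hn ih =>
    have h1 : (n + 1) ^ 3 ≤ 2 * n ^ 3 := by
      obtain ⟨c, rfl⟩ := Nat.exists_eq_add_of_le hn
      ring_nf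
      nlinarith [sq_nonneg c, Nat.zero_le (c ^ 3)]
    calc 4 * (n + 1) ^ 3 ≤ 4 * (2 * n ^ 3) := by omega
      _ = 2 * (4 * n ^ 3) := by ring
      _ ≤ 2 * 2 ^ n := by omega
      _ = 2 ^ (n + 1) := by ring

/-- class sizes -/
def g (d r : ℕ) : ℕ := (d + 1) * (r + 2)

/-- the core edges -/
abbrev JJ (d n : ℕ) : Type := Σ r : Fin n, Fin (g d r)

/-- the patterns -/
abbrev TT (n : ℕ) : Type := {T : Finset (Fin n) // T ≠ ∅ ∧ T ≠ univ}

/-- the vertices -/
abbrev VV (n m : ℕ) : Type := (TT n × Bool) ⊕ Fin m

/-- the pattern of a vertex -/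
def pat {n m : ℕ} (v : VV n m) : Finset (Fin n) := Sum.elim (fun x => x.1.1) (fun _ => univ) v

/-- the classes -/
def BB {n m : ℕ} (r : Fin n) : Finset (VV n m) := univ.filter (fun v => r ∈ pat v)

theorem mem_BB {n m : ℕ} (r : Fin n) (v : VV n m) : v ∈ BB r ↔ r ∈ pat v := by simp [BB]

theorem card_filter_J (d n : ℕ) (r : Fin n) :
    (univ.filter (fun j : JJ d n => j.1 = r)).card = g d r := by
  have : (univ.filter (fun j : JJ d n => j.1 = r)) =
      (univ : Finset (Fin (g d r))).map ⟨fun x => (⟨r, x⟩ : JJ d n), fun x y h => by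
        simpa using h⟩ := by
    ext ⟨a, b⟩
    simp only [mem_filter, mem_univ, true_and, mem_map, Function.Embedding.coeFn_mk]
    constructor
    · rintro rfl
      exact ⟨b, rfl⟩
    · rintro ⟨x, hx⟩
      exact (congrArg Sigma.fst hx).symm
  rw [this]
  simp

theorem card_J_le (d : ℕ) : Fintype.card (JJ d (d + 16)) ≤ (d + 16) ^ 3 := by
  rw [Fintype.card_sigma]
  calc ∑ r : Fin (d + 16), Fintype.card (Fin (g d r)) ≤ ∑ _r : Fin (d + 16), (d + 1) * (d + 17) := by
        apply Finset.sum_le_sum
        intro r _
        rw [Fintype.card_fin]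
        unfold g
        exact Nat.mul_le_mul_left _ (by omega)
    _ = (d + 16) * ((d + 1) * (d + 17)) := by simp
    _ ≤ (d + 16) ^ 3 := by
        have : (d + 1) * (d + 17) ≤ (d + 16) ^ 2 := by nlinarith
        calc (d + 16) * ((d + 1) * (d + 17)) ≤ (d + 16) * (d + 16) ^ 2 := Nat.mul_le_mul_left _ this
          _ = (d + 16) ^ 3 := by ring

theorem card_TT (n : ℕ) (hn : 0 < n) : Fintype.card (TT n) + 2 = 2 ^ n := by
  classical
  have : Nonempty (Fin n) := ⟨⟨0, hn⟩⟩
  have h1 : Fintype.card (TT n) = (univ.filter (fun T : Finset (Fin n) => T ≠ ∅ ∧ T ≠ univ)).card := by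
    rw [Fintype.card_subtype]
  have h2 : (univ.filter (fun T : Finset (Fin n) => T ≠ ∅ ∧ T ≠ univ)) =
      (univ : Finset (Finset (Fin n))) \ {∅, univ} := by
    ext T; simp
  rw [h1, h2, card_sdiff_of_subset (subset_univ _), card_univ, Fintype.card_finset, Fintype.card_fin]
  have h3 : ({∅, univ} : Finset (Finset (Fin n))).card = 2 := by
    rw [card_pair]
    exact univ_nonempty.ne_empty.symm
  rw [h3]
  have : 2 ≤ 2 ^ n := by
    calc 2 = 2 ^ 1 := by norm_num
      _ ≤ 2 ^ n := Nat.pow_le_pow_right (by norm_num) hn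
  omega

/-- number of subsets through a point -/
theorem card_through (n : ℕ) (r : Fin n) :
    2 * (univ.filter (fun T : Finset (Fin n) => r ∈ T)).card = 2 ^ n := by
  classical
  have h : (univ.filter (fun T : Finset (Fin n) => r ∈ T)).card =
      (univ.filter (fun T : Finset (Fin n) => ¬ r ∈ T)).card := by
    apply card_bij (fun T _ => Tᶜ)
    · intro T hT
      rw [mem_filter] at hT ⊢
      exact ⟨mem_univ _, by rw [mem_compl]; exact fun h => h hT.2⟩
    · intro T _ T' _ h
      exact compl_injective h
    · intro T hT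
      rw [mem_filter] at hT
      exact ⟨Tᶜ, by rw [mem_filter, mem_compl]; exact ⟨mem_univ _, hT.2⟩, compl_compl T⟩
  have h2 := card_filter_add_card_filter_not (s := (univ : Finset (Finset (Fin n)))) (fun T => r ∈ T)
  rw [card_univ, Fintype.card_finset, Fintype.card_fin] at h2
  omega

theorem card_TT_through (n : ℕ) (hn : 0 < n) (r : Fin n) :
    2 * (univ.filter (fun T : TT n => r ∈ T.1)).card + 2 = 2 ^ n := by
  classical
  have h1 : (univ.filter (fun T : TT n => r ∈ T.1)).card =
      ((univ.filter (fun T : Finset (Fin n) => r ∈ T)).erase univ).card := by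
    apply card_bij (fun T _ => T.1)
    · intro T hT
      rw [mem_erase]
      exact ⟨T.2.2, by simpa using hT⟩
    · intro T _ T' _ h
      exact Subtype.ext h
    · intro T hT
      rw [mem_erase] at hT
      have h2 : r ∈ T := by simpa using hT.2
      exact ⟨⟨T, ne_empty_of_mem h2, hT.1⟩, by simpa using h2, rfl⟩
  have h2 := card_through n r
  have h3 : (univ : Finset (Fin n)) ∈ univ.filter (fun T : Finset (Fin n) => r ∈ T) := by simp
  rw [h1, card_erase_of_mem h3]
  have : 2 ≤ 2 ^ n := by
    calc 2 = 2 ^ 1 := by norm_num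
      _ ≤ 2 ^ n := Nat.pow_le_pow_right (by norm_num) hn
  omega

theorem card_BB (n m : ℕ) (hn : 0 < n) (r : Fin n) :
    (BB r : Finset (VV n m)).card + 2 = 2 ^ n + m := by
  classical
  have h1 : (BB r : Finset (VV n m)) =
      ((univ.filter (fun T : TT n => r ∈ T.1)) ×ˢ (univ : Finset Bool)).disjSum
        (univ : Finset (Fin m)) := by
    ext v
    rw [mem_BB]
    rcases v with ⟨T, e⟩ | i
    · simp [pat]
    · simp [pat]
  rw [h1, card_disjSum, card_product, card_univ, card_univ, Fintype.card_bool, Fintype.card_fin]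
  have := card_TT_through n hn r
  omega

end Ex54

open Ex54

theorem ex : S_EX := by
  classical
  intro d _
  obtain ⟨n, hnd⟩ : ∃ n, n = d + 16 := ⟨_, rfl⟩
  have hn : 0 < n := by omega
  have hcube := cube_le n (by omega)
  have hJ : Fintype.card (JJ d n) ≤ n ^ 3 := by
    subst hnd; exact card_J_le d
  obtain ⟨N, hN⟩ : ∃ N, N = Fintype.card (JJ d n) := ⟨_, rfl⟩
  rw [← hN] at hJ
  have hbig : n ^ 3 ≥ 2 * d + 20 := by
    have h1 : n ^ 3 ≥ 16 * 16 * n := by
      have : n ^ 3 = n * n * n := by ring
      rw [this]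
      exact Nat.mul_le_mul_right _ (Nat.mul_le_mul (by omega) (by omega))
    omega
  have hpow : 2 * (N + 2 * d + 20) ≤ 2 ^ n := by omega
  obtain ⟨m, hm⟩ : ∃ m, m + N + 1 = 2 ^ n := ⟨2 ^ n - (N + 1), by omega⟩
  obtain ⟨k, hk⟩ : ∃ k, k + 3 = 2 ^ n + m := ⟨2 ^ n + m - 3, by omega⟩
  -- the distinguished pattern
  let z : Fin n := ⟨0, hn⟩
  let o1 : Fin n := ⟨1, by omega⟩
  have hz1 : z ≠ o1 := by
    intro h
    have := congrArg Fin.val h
    simp [z, o1] at this
  let TD : TT n := ⟨{z}, singleton_ne_empty _, by
    intro h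
    have : o1 ∈ ({z} : Finset (Fin n)) := by rw [h]; exact mem_univ _
    exact hz1 (mem_singleton.mp this).symm⟩
  -- owners
  have hown : ∃ own : JJ d n → TT n, Function.Injective own ∧
      ∀ j, own j ∈ (univ.filter (fun T : TT n => j.1 ∈ T.1)).erase TD := by
    apply (Finset.all_card_le_biUnion_card_iff_exists_injective
      (fun j : JJ d n => (univ.filter (fun T : TT n => j.1 ∈ T.1)).erase TD)).mp
    intro s
    rcases s.eq_empty_or_nonempty with rfl | ⟨j, hj⟩
    · simp
    have h1 : s.card ≤ N := by rw [hN]; exact card_le_univ s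
    have h2 : ((univ.filter (fun T : TT n => j.1 ∈ T.1)).erase TD).card ≤
        (s.biUnion fun j : JJ d n => (univ.filter (fun T : TT n => j.1 ∈ T.1)).erase TD).card := by
      apply card_le_card
      exact subset_biUnion_of_mem (fun j : JJ d n => (univ.filter (fun T : TT n => j.1 ∈ T.1)).erase TD) hj
    have h3 := pred_card_le_card_erase (s := univ.filter (fun T : TT n => j.1 ∈ T.1)) (a := TD)
    have h4 := card_TT_through n hn j.1
    omega
  obtain ⟨own, hinj, hown⟩ := hown
  have own_mem : ∀ j, j.1 ∈ (own j).1 := by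
    intro j
    have := hown j
    rw [mem_erase, mem_filter] at this
    exact this.2.2
  have own_ne : ∀ j, own j ≠ TD := by
    intro j
    have := hown j
    rw [mem_erase] at this
    exact this.1
  let X : Finset (VV n m) := univ.filter (fun v => ∃ T e, v = Sum.inl (T, e) ∧ T ≠ TD ∧
    ¬ (e = true ∧ ∃ j, own j = T))
  have mem_X : ∀ T e, (Sum.inl (T, e) : VV n m) ∈ X ↔ T ≠ TD ∧ ¬ (e = true ∧ ∃ j, own j = T) := by
    intro T e
    simp only [X, mem_filter, mem_univ, true_and]
    constructor
    · rintro ⟨T', e', h, h1, h2⟩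
      have h3 := Sum.inl.inj h
      rw [Prod.mk.injEq] at h3
      obtain ⟨rfl, rfl⟩ := h3
      exact ⟨h1, h2⟩
    · rintro ⟨h1, h2⟩
      exact ⟨T, e, rfl, h1, h2⟩
  have inr_X : ∀ i, (Sum.inr i : VV n m) ∉ X := by
    intro i h
    simp only [X, mem_filter, mem_univ, true_and] at h
    obtain ⟨T, e, h, _⟩ := h
    exact absurd h (by simp)
  have X_card : X.card + 2 = k := by
    -- complement of X in the first part
    have h1 : X = ((univ : Finset (TT n × Bool)) \
        ({(TD, false), (TD, true)} ∪ univ.image (fun j => (own j, true)))).map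
          ⟨fun x => (Sum.inl x : VV n m), Sum.inl_injective⟩ := by
      ext v
      rcases v with ⟨T, e⟩ | i
      · rw [mem_X]
        simp only [mem_map, mem_sdiff, mem_univ, true_and, mem_union, mem_insert, mem_singleton,
          mem_image, Function.Embedding.coeFn_mk, Sum.inl.injEq, exists_eq_right, Prod.mk.injEq,
          not_or, not_and, not_exists]
        constructor
        · rintro ⟨h1, h2⟩
          refine ⟨⟨fun h => absurd h h1, fun h => absurd h h1⟩, ?_⟩
          intro j hj he
          exact h2 he.symm j hj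
        · rintro ⟨⟨h1, h2⟩, h3⟩
          refine ⟨?_, ?_⟩
          · intro h
            rcases e with _ | _
            · exact h1 h rfl
            · exact h2 h rfl
          · intro he j hj
            exact h3 j hj he.symm
      · constructor
        · intro h; exact absurd h (inr_X i)
        · intro h
          simp at h
    rw [h1, card_map, card_sdiff_of_subset (subset_univ _), card_union_of_disjoint]
    · rw [card_pair (by simp), card_image_of_injective _ (by
        intro j j' h
        exact hinj (Prod.mk.inj h).1), card_univ, card_univ, ← hN, Fintype.card_prod,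
        Fintype.card_bool]
      have := card_TT n hn
      omega
    · rw [disjoint_left]
      intro x hx hx'
      rw [mem_image] at hx'
      obtain ⟨j, _, rfl⟩ := hx'
      simp only [mem_insert, mem_singleton, Prod.mk.injEq] at hx
      rcases hx with ⟨h, _⟩ | ⟨h, _⟩
      · exact own_ne j h
      · exact own_ne j h
  have patl : ∀ (T : TT n) (e : Bool), pat (Sum.inl (T, e) : VV n m) = T.1 := fun T e => rfl
  have patr : ∀ (i : Fin m), pat (Sum.inr i : VV n m) = univ := fun i => rfl
  have same : ∀ v v' : VV n m, (∀ r, v ∈ (BB r : Finset (VV n m)) ↔ v' ∈ BB r) → pat v = pat v' := by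
    intro v v' h
    ext r
    rw [← mem_BB, ← mem_BB]
    exact h r
  have same2 : ∀ (v : VV n m) (T : TT n), pat v = T.1 → ∃ e, v = Sum.inl (T, e) := by
    intro v T h
    rcases v with ⟨T', e⟩ | i
    · rw [patl] at h
      exact ⟨e, by rw [Subtype.ext h]⟩
    · rw [patr] at h
      exact absurd h.symm T.2.2
  refine ⟨k, n, VV n m, JJ d n, inferInstance, inferInstance, inferInstance, inferInstance, ⟨{
    cl := fun j => j.1
    B := fun r => BB r
    q := fun j e => Sum.inl (own j, e)
    X := X
    C := univ.map ⟨fun i => (Sum.inr i : VV n m), Sum.inr_injective⟩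
    a := Sum.inl (TD, false)
    b := Sum.inl (TD, true)
    npos := hn
    B_card := ?_
    B_inter := ?_
    q_mem := ?_
    q_inj := ?_
    q_pair := ?_
    ab_pair := ?_
    C_B := ?_
    cover := ?_
    pat_q := ?_
    pat_a := ?_
    pat_X := ?_
    X_card := X_card
    qf_X := ?_
    qt_X := ?_
    a_X := ?_
    b_X := ?_
    C_X := ?_
    a_ne_b := ?_
    a_C := ?_
    b_C := ?_
    q_ne_a := ?_
    q_ne_b := ?_
    q_C := ?_
    C_card := ?_
    cls_card := ?_
    cls_gap := ?_
    V_card := ?_
    unowned := ?_ }⟩⟩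
  · -- B_card
    intro r
    have := card_BB n m hn r
    omega
  · -- B_inter
    intro r r' hr
    have h1 := card_BB n m hn r
    have h2 : ((BB r : Finset (VV n m)) \ BB r').card + (BB r ∩ BB r' : Finset (VV n m)).card =
        (BB r : Finset (VV n m)).card := card_sdiff_add_card_inter _ _
    have h3 : 3 ≤ ((BB r : Finset (VV n m)) \ BB r').card := by
      obtain ⟨s, hs, hs'⟩ : ∃ s : Fin n, s ≠ r ∧ s ≠ r' := by
        by_contra hcon
        push Not at hcon
        have : (univ : Finset (Fin n)) ⊆ {r, r'} := by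
          intro s _
          rw [mem_insert, mem_singleton]
          by_cases h : s = r
          · exact Or.inl h
          · exact Or.inr (hcon s h)
        have h4 := card_le_card this
        rw [card_univ, Fintype.card_fin] at h4
        have h5 := card_le_two (a := r) (b := r')
        omega
      have hT1 : ({r} : Finset (Fin n)) ≠ ∅ ∧ ({r} : Finset (Fin n)) ≠ univ :=
        ⟨singleton_ne_empty _, by
          intro h
          have : s ∈ ({r} : Finset (Fin n)) := by rw [h]; exact mem_univ _
          exact hs (mem_singleton.mp this)⟩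
      have hT2 : ({r, s} : Finset (Fin n)) ≠ ∅ ∧ ({r, s} : Finset (Fin n)) ≠ univ :=
        ⟨insert_ne_empty _ _, by
          intro h
          have : r' ∈ ({r, s} : Finset (Fin n)) := by rw [h]; exact mem_univ _
          rw [mem_insert, mem_singleton] at this
          rcases this with h | h
          · exact hr h.symm
          · exact hs' h.symm⟩
      have hne : (⟨{r}, hT1⟩ : TT n) ≠ ⟨{r, s}, hT2⟩ := by
        intro h
        have h' := congrArg Subtype.val h
        have : s ∈ ({r} : Finset (Fin n)) := by
          have h2 : s ∈ ({r, s} : Finset (Fin n)) := by simp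
          rw [show ({r, s} : Finset (Fin n)) = {r} from h'.symm] at h2
          exact h2
        exact hs (mem_singleton.mp this)
      have hsub : ({Sum.inl (⟨{r}, hT1⟩, false), Sum.inl (⟨{r}, hT1⟩, true),
          Sum.inl (⟨{r, s}, hT2⟩, false)} : Finset (VV n m)) ⊆ BB r \ BB r' := by
        intro v hv
        rw [mem_sdiff, mem_BB, mem_BB]
        simp only [mem_insert, mem_singleton] at hv
        rcases hv with rfl | rfl | rfl
        · simp [patl, hr.symm]
        · simp [patl, hr.symm]
        · simp [patl, hr.symm, hs'.symm]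
      refine le_trans ?_ (card_le_card hsub)
      rw [card_insert_of_notMem, card_pair]
      · intro h
        have := Sum.inl.inj h
        rw [Prod.mk.injEq] at this
        exact hne this.1
      · simp only [mem_insert, mem_singleton, Sum.inl.injEq, Prod.mk.injEq, not_or, not_and]
        exact ⟨fun _ => by simp, fun h => absurd h hne⟩
    show (BB r ∩ BB r' : Finset (VV n m)).card + 2 ≤ k
    omega
  · -- q_mem
    intro j e
    rw [mem_BB, patl]
    exact own_mem j
  · -- q_inj
    intro j e j' e' h
    have := Sum.inl.inj h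
    rw [Prod.mk.injEq] at this
    exact ⟨hinj this.1, this.2⟩
  · -- q_pair
    intro j r
    rw [mem_BB, mem_BB, patl, patl]
  · intro r
    rw [mem_BB, mem_BB, patl, patl]
  · intro c hc r
    rw [mem_map] at hc
    obtain ⟨i, _, rfl⟩ := hc
    rw [mem_BB]
    exact mem_univ r
  · intro v
    rcases v with ⟨T, e⟩ | i
    · obtain ⟨r, hr⟩ := nonempty_iff_ne_empty.mpr T.2.1
      exact ⟨r, by rw [mem_BB, patl]; exact hr⟩
    · exact ⟨z, by rw [mem_BB, patr]; exact mem_univ z⟩
  · -- pat_q
    intro j e v h
    obtain ⟨e', he'⟩ := same2 v (own j) ((same v _ h).trans (patl _ _))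
    rcases e' with _ | _
    · exact Or.inl he'
    · exact Or.inr he'
  · intro v h
    obtain ⟨e', he'⟩ := same2 v TD ((same v _ h).trans (patl _ _))
    rcases e' with _ | _
    · exact Or.inl he'
    · exact Or.inr he'
  · -- pat_X
    intro v v' h hv hq
    rcases v with ⟨T, e⟩ | i
    · obtain ⟨e', rfl⟩ := same2 v' T ((same _ _ h).symm.trans (patl _ _))
      rw [mem_X] at hv
      have hno : ¬ ∃ j, own j = T := by
        rintro ⟨j, rfl⟩
        rcases e with _ | _
        · exact hq j rfl
        · exact hv.2 ⟨rfl, j, rfl⟩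
      refine ⟨?_, ?_⟩
      · rw [mem_X]
        exact ⟨hv.1, fun h => hno h.2⟩
      · intro j hj
        have := Sum.inl.inj hj
        rw [Prod.mk.injEq] at this
        exact hno ⟨j, this.1.symm⟩
    · exact absurd hv (inr_X i)
  · intro j
    rw [mem_X]
    exact ⟨own_ne j, fun h => absurd h.1 (by simp)⟩
  · intro j h
    rw [mem_X] at h
    exact h.2 ⟨rfl, j, rfl⟩
  · intro h
    rw [mem_X] at h
    exact h.1 rfl
  · intro h
    rw [mem_X] at h
    exact h.1 rfl
  · intro c hc
    rw [mem_map] at hc
    obtain ⟨i, _, rfl⟩ := hc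
    exact inr_X i
  · intro h
    have := Sum.inl.inj h
    rw [Prod.mk.injEq] at this
    exact absurd this.2 (by simp)
  · simp
  · simp
  · intro j e h
    have := Sum.inl.inj h
    rw [Prod.mk.injEq] at this
    exact own_ne j this.1
  · intro j e h
    have := Sum.inl.inj h
    rw [Prod.mk.injEq] at this
    exact own_ne j this.1
  · intro j e
    simp
  · rw [card_map, card_univ, Fintype.card_fin]
    omega
  · intro r
    rw [card_filter_J]
    unfold g
    nlinarith
  · intro r r' hr
    rw [card_filter_J, card_filter_J]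
    unfold g
    have h1 : (r : ℕ) + 1 ≤ r' := hr
    nlinarith
  · rw [Fintype.card_sum, Fintype.card_prod, Fintype.card_bool, Fintype.card_fin]
    have := card_TT n hn
    omega
  · intro r
    have h1 : ∃ T ∈ (univ.filter (fun T : TT n => r ∈ T.1)).erase TD, T ∉ univ.image own := by
      by_contra hcon
      push Not at hcon
      have h2 := card_le_card (s := (univ.filter (fun T : TT n => r ∈ T.1)).erase TD)
        (t := univ.image own) hcon
      have h3 := pred_card_le_card_erase (s := univ.filter (fun T : TT n => r ∈ T.1)) (a := TD)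
      have h4 := card_TT_through n hn r
      rw [card_image_of_injective _ hinj, card_univ, ← hN] at h2
      omega
    obtain ⟨T, hT, hT'⟩ := h1
    rw [mem_erase, mem_filter] at hT
    refine ⟨Sum.inl (T, false), ?_, ?_, ?_⟩
    · rw [mem_BB, patl]
      exact hT.2.2
    · rw [mem_X]
      exact ⟨hT.1, fun h => absurd h.1 (by simp)⟩
    · intro j e h
      have := Sum.inl.inj h
      rw [Prod.mk.injEq] at this
      exact hT' (mem_image.mpr ⟨j, mem_univ _, this.1.symm⟩)

end Pool.Agent.Helper65K9.SR
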