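import Pool.Agent.Helper65K9.SR.Stm2

/-!
The frame chosen after the second move of the first player ([FR], [MIN], [NB], [ST1]).
-/

set_option autoImplicit false

namespace Pool.Agent.Helper65K9.SR

open Finset

namespace Frame

variable {d k n : ℕ} {V J : Type} [Fintype V] [DecidableEq V] [Fintype J] [DecidableEq J]

theorem exists_J (D : Design d k n V J) : ∃ j j' : J, j ≠ j' := by
  have h1 := D.cls_card ⟨0, D.npos⟩
  have h2 : 1 < (univ.filter (fun j => D.cl j = ⟨0, D.npos⟩)).card := by omega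
  obtain ⟨j, _, j', _, h⟩ := one_lt_card.1 h2
  exact ⟨j, j', h⟩

omit [Fintype V] in
theorem card_inter_insert (s X : Finset V) {y : V} (hy : y ∉ X) :
    (s ∩ insert y X).card = (s ∩ X).card + if y ∈ s then 1 else 0 := by
  split_ifs with h
  · rw [inter_insert_of_mem h, card_insert_of_notMem (fun h1 => hy (mem_inter.1 h1).2)]
  · rw [inter_insert_of_notMem h, add_zero]

theorem mem_f_iff (D : Design d k n V J) (l : J) {y : V} (hy : y ∈ D.Y) :
    y ∈ D.f l ↔ y ∈ D.B (D.cl l) := by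
  unfold Design.f
  rw [mem_erase]
  exact ⟨fun h => h.2, fun h => ⟨fun h1 => D.Y_q hy l true h1.symm, h⟩⟩

theorem mn : S_MIN := by
  intro d k n V J _ _ _ _ D
  obtain ⟨j, _, _⟩ := exists_J D
  obtain ⟨j₀, _, hj₀⟩ := exists_min_image (univ : Finset J)
    (fun l => (D.f l ∩ insert D.b D.X).card) ⟨j, mem_univ j⟩
  refine ⟨j₀, fun l y hy => (hj₀ l (mem_univ l)).trans ?_⟩
  rw [card_inter_insert _ _ (D.Y_X hy), card_inter_insert _ _ D.b_X]
  refine add_le_add le_rfl ?_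
  have hb : D.b ∈ D.f l → y ∈ D.f l := by
    rw [mem_f_iff D l hy, mem_f_iff D l D.b_Y]
    intro hb
    have hy' := hy
    unfold Design.Y at hy'
    simp only [mem_insert] at hy'
    rcases hy' with rfl | rfl | h
    · exact (D.ab_pair _).2 hb
    · exact hb
    · exact D.C_B _ h _
  split_ifs with h1 h2
  · exact le_rfl
  · exact absurd (hb h1) h2
  · exact Nat.zero_le _
  · exact le_rfl

theorem nb : S_NB := by
  intro d k n V J _ _ _ _ D j₀ g₂ φ ψ y hmin hnb hy hls hg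
  obtain ⟨o, ho1, ho2, _, ho4⟩ := hnb
  obtain ⟨l, rfl⟩ := D.mem_K.1 hg
  have h1 := hmin l y hy
  have h2 : ((D.f l).map ψ ∩ D.ls ψ y).card = (D.f l ∩ insert y D.X).card := by
    unfold Design.ls
    rw [← map_inter, card_map]
  have h3 : (D.f l).map ψ ∩ D.ls φ D.b ⊆ ((D.f j₀ ∩ insert D.b D.X).erase o).map φ := by
    intro x hx
    obtain ⟨hx1, hx2⟩ := mem_inter.1 hx
    unfold Design.ls at hx2
    obtain ⟨v, hv, rfl⟩ := mem_map.1 hx2
    obtain ⟨h4, h5⟩ := ho4 v hx1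
    exact mem_map_of_mem φ (mem_erase.2 ⟨h5, mem_inter.2 ⟨h4, hv⟩⟩)
  have h4 := card_le_card h3
  rw [← hls, h2, card_map, card_erase_of_mem (mem_inter.2 ⟨ho1, mem_insert_of_mem ho2⟩)] at h4
  have h5 : 0 < (D.f j₀ ∩ insert D.b D.X).card :=
    card_pos.2 ⟨o, mem_inter.2 ⟨ho1, mem_insert_of_mem ho2⟩⟩
  omega

theorem fr : S_FR := by
  intro d k n V J _ _ _ _ D j₀ g₁ g₂ e₁ he₁ hg₂ hne hdis
  obtain ⟨o, ho1, ho2, ho3⟩ := D.unowned (D.cl j₀)
  have hof : o ∈ D.f j₀ := by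
    unfold Design.f
    exact mem_erase.2 ⟨ho3 j₀ true, ho1⟩
  obtain ⟨x, hx1, hx2⟩ : ∃ x, x ∈ e₁ ∧ x ∉ g₂ := by
    by_contra hcon
    have hsub : e₁ ⊆ g₂ := by
      intro x hx
      by_contra h
      exact hcon ⟨x, hx, h⟩
    exact hne (eq_of_subset_of_card_le hsub (by omega)).symm
  have hcard : (D.f j₀).card = e₁.card := by rw [D.f_card, he₁]
  let σ₀ : D.f j₀ ≃ e₁ := Finset.equivOfCardEq hcard
  let σ : D.f j₀ ≃ e₁ := σ₀.trans (Equiv.swap (σ₀ ⟨o, hof⟩) ⟨x, hx1⟩)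
  have hσ : σ ⟨o, hof⟩ = ⟨x, hx1⟩ := by
    change Equiv.swap (σ₀ ⟨o, hof⟩) ⟨x, hx1⟩ (σ₀ ⟨o, hof⟩) = _
    rw [Equiv.swap_apply_left]
  -- the vertices outside
  set M : ℕ := (g₁ ∪ g₂ ∪ e₁).sup id + 1 with hM
  have hlt : ∀ z ∈ g₁ ∪ g₂ ∪ e₁, z < M := by
    intro z hz
    have := Finset.le_sup (f := id) hz
    simp only [id] at this
    omega
  let ι := Fintype.equivFin V
  let φ₀ : V → ℕ := fun v => if h : v ∈ D.f j₀ then (σ ⟨v, h⟩ : ℕ) else M + ι v
  have hin : ∀ v (h : v ∈ D.f j₀), φ₀ v = σ ⟨v, h⟩ := fun v h => dif_pos h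
  have hout : ∀ v, v ∉ D.f j₀ → φ₀ v = M + ι v := fun v h => dif_neg h
  have hinj : Function.Injective φ₀ := by
    intro v v' hvv
    by_cases h : v ∈ D.f j₀ <;> by_cases h' : v' ∈ D.f j₀
    · rw [hin v h, hin v' h'] at hvv
      have := σ.injective (Subtype.ext hvv)
      exact congrArg Subtype.val this
    · rw [hin v h, hout v' h'] at hvv
      have := hlt _ (mem_union_right _ (σ ⟨v, h⟩).2)
      omega
    · rw [hout v h, hin v' h'] at hvv
      have := hlt _ (mem_union_right _ (σ ⟨v', h'⟩).2)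
      omega
    · rw [hout v h, hout v' h'] at hvv
      exact ι.injective (Fin.ext (by omega))
  have hnot : ∀ v, v ∉ D.f j₀ → φ₀ v ∉ g₁ ∧ φ₀ v ∉ g₂ := by
    intro v hv
    constructor
    · intro h
      have := hlt _ (mem_union_left _ (mem_union_left _ h))
      rw [hout v hv] at this
      omega
    · intro h
      have := hlt _ (mem_union_left _ (mem_union_right _ h))
      rw [hout v hv] at this
      omega
  refine ⟨⟨φ₀, hinj⟩, ?_, hnot, ?_, ?_⟩
  · apply eq_of_subset_of_card_le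
    · intro z hz
      obtain ⟨v, hv, rfl⟩ := mem_map.1 hz
      change φ₀ v ∈ e₁
      rw [hin v hv]
      exact (σ ⟨v, hv⟩).2
    · rw [card_map, hcard]
  · rw [disjoint_left]
    intro z hz hz'
    obtain ⟨v, _, rfl⟩ := mem_map.1 hz'
    by_cases hv : v ∈ D.f j₀
    · refine disjoint_left.1 hdis hz ?_
      change φ₀ v ∈ e₁
      rw [hin v hv]
      exact (σ ⟨v, hv⟩).2
    · exact (hnot v hv).1 hz
  · refine ⟨o, hof, ho2, ho3, fun v hv => ?_⟩
    have hvf : v ∈ D.f j₀ := by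
      by_contra h
      exact (hnot v h).2 hv
    refine ⟨hvf, ?_⟩
    rintro rfl
    change φ₀ v ∈ g₂ at hv
    rw [hin v hvf, hσ] at hv
    exact hx2 hv

theorem st1 : S_FR → S_MIN → S_ST1 := by
  intro hF hM d k n V J _ _ _ _ D g₁ hg₁
  obtain ⟨j₀, hj₀⟩ := hM d k n V J D
  have hk := D.kpos
  set M : ℕ := g₁.sup id + 1 with hMdef
  set s : Finset ℕ := (range k).map ⟨fun i => M + i, fun a b h => by simpa using h⟩ with hs
  have hscard : s.card = k := by rw [hs, card_map, card_range]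
  have hdis : Disjoint g₁ s := by
    rw [disjoint_left]
    intro z hz hz'
    obtain ⟨i, _, rfl⟩ := mem_map.1 hz'
    have h1 : M + i ≤ g₁.sup id := Finset.le_sup (f := id) hz
    omega
  have hsg : s ≠ g₁ := by
    intro h
    rw [h, disjoint_self_iff_empty] at hdis
    rw [hdis] at hg₁
    simp at hg₁
    omega
  refine ⟨s, hscard, hsg, fun g hg hgg hgs => ?_⟩
  obtain ⟨φ, h1, h2, h3, h4⟩ := hF d k n V J D j₀ g₁ g s hscard hg hgs hdis
  obtain ⟨ja, jb, hab⟩ := exists_J D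
  have hout : ∀ j, j ≠ j₀ → ∀ e, D.fe φ j e ∉ ({g, g₁} : Finset (Finset ℕ)) := by
    intro j hj e
    obtain ⟨v, hv1, hv2, hv3⟩ : ∃ v, v ∈ D.B (D.cl j) ∧ v ≠ D.q j (!e) ∧ v ∉ D.f j₀ := by
      by_cases hcl : D.cl j = D.cl j₀
      · refine ⟨D.q j₀ true, hcl ▸ D.q_mem j₀ true, fun h => hj (D.q_inj _ _ _ _ h).1.symm, ?_⟩
        unfold Design.f
        simp
      · have h5 := D.B_inter _ _ hcl
        by_contra hcon
        have hsub : (D.B (D.cl j)).erase (D.q j (!e)) ⊆ D.B (D.cl j) ∩ D.B (D.cl j₀) := by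
          intro v hv
          obtain ⟨hv1, hv2⟩ := mem_erase.1 hv
          refine mem_inter.2 ⟨hv2, ?_⟩
          by_contra hv3
          exact hcon ⟨v, hv2, hv1, fun h => hv3 (D.f_sub j₀ h)⟩
        have h6 := card_le_card hsub
        rw [card_erase_of_mem (D.q_mem j _), D.B_card] at h6
        omega
    have h5 : φ v ∈ D.fe φ j e := by
      unfold Design.fe
      exact mem_map_of_mem φ (mem_erase.2 ⟨hv2, hv1⟩)
    intro h6
    rcases mem_insert.1 h6 with h7 | h7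
    · rw [h7] at h5
      exact (h2 v hv3).2 h5
    · rw [mem_singleton.1 h7] at h5
      exact (h2 v hv3).1 h5
  refine ⟨φ, {j₀}, j₀, g₁, g, hj₀, mem_singleton_self _, ?_, ?_, ?_, hgg.symm, h3, h4, ?_, ?_,
    ?_, ?_⟩
  · intro h
    have ha : ja ∈ ({j₀} : Finset J) := h ▸ mem_univ _
    have hb : jb ∈ ({j₀} : Finset J) := h ▸ mem_univ _
    exact hab ((mem_singleton.1 ha).trans (mem_singleton.1 hb).symm)
  · exact mem_insert_of_mem (mem_singleton_self _)
  · exact mem_insert_self _ _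
  · rw [image_singleton, h1]
  · rw [card_singleton, card_pair hgg]
  · rw [disjoint_singleton_right, mem_insert, mem_singleton]
    rintro (h | h)
    · exact hgs h.symm
    · exact hsg h
  · intro j hj j' _ e e' hjF _
    exact absurd hjF (hout j (fun h => hj (mem_singleton.2 h)) e)

end Frame

theorem fr : S_FR := Frame.fr

theorem mn : S_MIN := Frame.mn

theorem nb : S_NB := Frame.nb

theorem st1 : S_FR → S_MIN → S_ST1 := Frame.st1

end Pool.Agent.Helper65K9.SR
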