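import Pool.Agent.Helper65K9.SR.Defs

/-!
[GA]: an invariant for the second player excludes a winning strategy of the first player.
-/

set_option autoImplicit false

namespace Pool.Agent.Helper65K9.SR

open Finset

namespace Ga

/-- A `k`-set avoiding a finite list. -/
theorem fresh (k : ℕ) (hk : 0 < k) (l : List (Finset ℕ)) : ∃ x : Finset ℕ, x.card = k ∧ x ∉ l := by
  classical
  obtain ⟨M, hM⟩ : ∃ M : ℕ, ∀ y ∈ l, ∀ a ∈ y, a < M := by
    induction l with
    | nil => exact ⟨0, by simp⟩
    | cons y l ih =>
      obtain ⟨M, hM⟩ := ih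
      refine ⟨max M (y.sup id + 1), ?_⟩
      intro z hz a ha
      rcases List.mem_cons.1 hz with rfl | hz
      · exact lt_of_lt_of_le (Nat.lt_succ_of_le (Finset.le_sup (f := id) ha)) (le_max_right _ _)
      · exact lt_of_lt_of_le (hM z hz a ha) (le_max_left _ _)
  refine ⟨(Finset.range k).map (addLeftEmbedding M), by simp, ?_⟩
  intro h
  have := hM _ h M (by
    rw [Finset.mem_map]
    exact ⟨0, by simpa using hk, by simp⟩)
  exact lt_irrefl _ this

/-- Entries of even index. -/
def EV (l : List (Finset ℕ)) : Finset (Finset ℕ) :=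
  ((range l.length).filter (fun i => Even i)).image (fun j => l.getD j ∅)

/-- Entries of odd index. -/
def OD (l : List (Finset ℕ)) : Finset (Finset ℕ) :=
  ((range l.length).filter (fun i => Odd i)).image (fun j => l.getD j ∅)

theorem mem_EV_or_OD (l : List (Finset ℕ)) (x : Finset ℕ) (h : x ∈ l) : x ∈ EV l ∨ x ∈ OD l := by
  obtain ⟨i, hi, rfl⟩ := List.mem_iff_getElem.1 h
  rcases Nat.even_or_odd i with he | ho
  · left
    refine Finset.mem_image.2 ⟨i, ?_, ?_⟩
    · simp [hi, he]
    · simp [hi]
  · right
    refine Finset.mem_image.2 ⟨i, ?_, ?_⟩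
    · simp only [Finset.mem_filter, Finset.mem_range]; exact ⟨hi, ho⟩
    · simp [hi]

theorem EV_ofFn (m : ℕ → Finset ℕ) (i : ℕ) :
    EV (List.ofFn (fun j : Fin i => m j)) = ((range i).filter (fun i => Even i)).image m := by
  unfold EV
  rw [List.length_ofFn]
  refine Finset.image_congr ?_
  intro j hj
  have hj' : j < i := by
    have := (Finset.mem_filter.1 (Finset.mem_coe.1 hj)).1
    simpa using this
  simp [List.getD_eq_getElem?_getD, hj']

theorem OD_ofFn (m : ℕ → Finset ℕ) (i : ℕ) :
    OD (List.ofFn (fun j : Fin i => m j)) = ((range i).filter (fun i => Odd i)).image m := by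
  unfold OD
  rw [List.length_ofFn]
  refine Finset.image_congr ?_
  intro j hj
  have hj' : j < i := by
    have := (Finset.mem_filter.1 (Finset.mem_coe.1 hj)).1
    simpa using this
  simp [List.getD_eq_getElem?_getD, hj']

section Play

variable (nxt : List (Finset ℕ) → Finset ℕ)

/-- The history. -/
def hist : ℕ → List (Finset ℕ)
  | 0 => []
  | i + 1 => hist i ++ [nxt (hist i)]

theorem hist_eq (i : ℕ) : hist nxt i = List.ofFn (fun j : Fin i => nxt (hist nxt j)) := by
  induction i with
  | zero => simp [hist]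
  | succ i ih =>
    rw [List.ofFn_succ_last]
    simp only [Fin.val_castSucc, Fin.val_last]
    rw [← ih]
    rfl

end Play

end Ga

open Ga in
theorem ga : S_GA := by
  classical
  intro k n H P hk h0 hstep hcopy
  rintro ⟨s, hs⟩
  -- the replies
  have hex : ∀ l : List (Finset ℕ), ∃ x : Finset ℕ, x.card = k ∧ x ∉ l ∧
      (P (EV l) (OD l) → ∀ g : Finset ℕ, g.card = k → g ∉ EV l → g ∉ OD l → g ≠ x →
        P (insert g (EV l)) (insert x (OD l))) := by
    intro l
    by_cases hP : P (EV l) (OD l)
    · obtain ⟨x, hx, hxF, hxS, hx2⟩ := hstep _ _ hP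
      refine ⟨x, hx, ?_, fun _ => hx2⟩
      intro h
      rcases mem_EV_or_OD l x h with h | h
      · exact hxF h
      · exact hxS h
    · obtain ⟨x, hx, hxl⟩ := fresh k hk l
      exact ⟨x, hx, hxl, fun h => absurd h hP⟩
  choose t ht1 ht2 ht3 using hex
  let nxt : List (Finset ℕ) → Finset ℕ := fun l => if Even l.length then s l else t l
  let m : ℕ → Finset ℕ := fun i => nxt (hist nxt i)
  have hh : ∀ i, hist nxt i = List.ofFn (fun j : Fin i => m j) := fun i => hist_eq nxt i
  have hm : ∀ i, m i = nxt (List.ofFn (fun j : Fin i => m j)) := by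
    intro i
    rw [← hh i]
  have heven : ∀ i, Even i → m i = s (List.ofFn (fun j : Fin i => m j)) := by
    intro i hi
    rw [hm i]
    simp only [nxt, List.length_ofFn, hi, if_true]
  have hoddt : ∀ i, Odd i → m i = t (List.ofFn (fun j : Fin i => m j)) := by
    intro i hi
    rw [hm i]
    have : ¬ Even i := Nat.not_even_iff_odd.2 hi
    simp only [nxt, List.length_ofFn, this, if_false]
  have hodd : ∀ i : ℕ, Odd i → (m i).card = k ∧ ∀ j < i, m j ≠ m i := by
    intro i hi
    constructor
    · rw [hoddt i hi]; exact ht1 _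
    · intro j hj h
      have := ht2 (List.ofFn (fun j : Fin i => m j))
      rw [← hoddt i hi, ← h] at this
      apply this
      rw [List.mem_ofFn]
      exact ⟨⟨j, hj⟩, rfl⟩
  obtain ⟨N, hN, hleg, ⟨f, hf, hfe⟩, hno⟩ := hs m heven hodd
  -- the invariant
  let FF : ℕ → Finset (Finset ℕ) := fun i => ((range i).filter (fun i => Even i)).image m
  let SS : ℕ → Finset (Finset ℕ) := fun i => ((range i).filter (fun i => Odd i)).image m
  have key : ∀ r : ℕ, 2 * r ≤ N → P (FF (2 * r + 1)) (SS (2 * r + 1)) := by
    intro r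
    induction r with
    | zero =>
      intro _
      have h1 : FF (2 * 0 + 1) = {m 0} := by
        ext x
        simp only [FF, Finset.mem_image, Finset.mem_filter, Finset.mem_range,
          Finset.mem_singleton]
        constructor
        · rintro ⟨j, ⟨hj, _⟩, rfl⟩
          have : j = 0 := by omega
          rw [this]
        · rintro rfl
          exact ⟨0, ⟨by omega, by simp⟩, rfl⟩
      have h2 : SS (2 * 0 + 1) = ∅ := by
        ext x
        simp only [SS, Finset.mem_image, Finset.mem_filter, Finset.mem_range,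
          Finset.notMem_empty, iff_false]
        rintro ⟨j, ⟨hj, ho⟩, rfl⟩
        have : j = 0 := by omega
        subst this
        simp at ho
      rw [h1, h2]
      exact h0 _ (hleg 0 (Nat.zero_le _) (by simp)).1
    | succ r ih =>
      intro hr
      have hP := ih (by omega)
      have ho : Odd (2 * r + 1) := ⟨r, rfl⟩
      have he : Even (2 * r + 2) := ⟨r + 1, by ring⟩
      have hF : EV (List.ofFn (fun j : Fin (2 * r + 1) => m j)) = FF (2 * r + 1) := EV_ofFn m _
      have hS : OD (List.ofFn (fun j : Fin (2 * r + 1) => m j)) = SS (2 * r + 1) := OD_ofFn m _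
      have h3 := ht3 (List.ofFn (fun j : Fin (2 * r + 1) => m j))
      rw [hF, hS, ← hoddt _ ho] at h3
      obtain ⟨hl1, hl2⟩ := hleg (2 * r + 2) (by omega) he
      have h4 := h3 hP (m (2 * r + 2)) hl1 ?_ ?_ ?_
      · have h5 : FF (2 * (r + 1) + 1) = insert (m (2 * r + 2)) (FF (2 * r + 1)) := by
          ext x
          simp only [FF, Finset.mem_image, Finset.mem_filter, Finset.mem_range,
            Finset.mem_insert]
          constructor
          · rintro ⟨j, ⟨hj, hje⟩, rfl⟩
            by_cases h : j = 2 * r + 2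
            · left; rw [h]
            · right
              refine ⟨j, ⟨?_, hje⟩, rfl⟩
              rcases hje with ⟨c, hc⟩
              omega
          · rintro (rfl | ⟨j, ⟨hj, hje⟩, rfl⟩)
            · exact ⟨2 * r + 2, ⟨by omega, he⟩, rfl⟩
            · exact ⟨j, ⟨by omega, hje⟩, rfl⟩
        have h6 : SS (2 * (r + 1) + 1) = insert (m (2 * r + 1)) (SS (2 * r + 1)) := by
          ext x
          simp only [SS, Finset.mem_image, Finset.mem_filter, Finset.mem_range,
            Finset.mem_insert]
          constructor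
          · rintro ⟨j, ⟨hj, hje⟩, rfl⟩
            by_cases h : j = 2 * r + 1
            · left; rw [h]
            · right
              refine ⟨j, ⟨?_, hje⟩, rfl⟩
              rcases hje with ⟨c, hc⟩
              omega
          · rintro (rfl | ⟨j, ⟨hj, hje⟩, rfl⟩)
            · exact ⟨2 * r + 1, ⟨by omega, ho⟩, rfl⟩
            · exact ⟨j, ⟨by omega, hje⟩, rfl⟩
        rw [h5, h6]
        exact h4
      · intro h
        obtain ⟨j, hj, hj2⟩ := Finset.mem_image.1 h
        have := (Finset.mem_filter.1 hj).1
        rw [Finset.mem_range] at this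
        exact hl2 j (by omega) hj2
      · intro h
        obtain ⟨j, hj, hj2⟩ := Finset.mem_image.1 h
        have := (Finset.mem_filter.1 hj).1
        rw [Finset.mem_range] at this
        exact hl2 j (by omega) hj2
      · intro h
        exact hl2 (2 * r + 1) (by omega) h.symm
  obtain ⟨r, hr⟩ := hN
  have hP := key r (by omega)
  have hc : HasCopy H (FF (2 * r + 1)) := by
    refine ⟨f, hf, fun e he => ?_⟩
    obtain ⟨i, hi, hie, hmi⟩ := hfe e he
    rw [← hmi]
    exact Finset.mem_image.2 ⟨i, by
      rw [Finset.mem_filter, Finset.mem_range]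
      exact ⟨by omega, hie⟩, rfl⟩
  obtain ⟨f', hf', hfe'⟩ := hcopy _ _ hP hc
  apply hno
  refine ⟨f', hf', fun e he => ?_⟩
  obtain ⟨i, hi, hmi⟩ := Finset.mem_image.1 (hfe' e he)
  rw [Finset.mem_filter, Finset.mem_range] at hi
  refine ⟨i, ?_, hi.2, hmi⟩
  rcases hi.2 with ⟨c, hc⟩
  omega

end Pool.Agent.Helper65K9.SR
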