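import Pool.Agent.Helper65K9.SR.Stm2

/-!
[PA] The pairing stage (helper39).
-/

set_option autoImplicit false

namespace Pool.Agent.Helper65K9.SR

open Finset

variable {d k n : ℕ} {V J : Type} [Fintype V] [DecidableEq V] [Fintype J] [DecidableEq J]

namespace Pair39

theorem fe_false (D : Design d k n V J) (φ : V ↪ ℕ) (j : J) :
    D.fe φ j false = (D.f j).map φ := rfl

theorem fe_card (D : Design d k n V J) (φ : V ↪ ℕ) (j : J) (e : Bool) :
    (D.fe φ j e).card = k := by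
  unfold Design.fe
  rw [card_map, card_erase_of_mem (D.q_mem j _), D.B_card]
  simp

theorem erase_inj {A : Finset V} {x y : V} (hx : x ∈ A) (h : A.erase x = A.erase y) :
    x = y := by
  by_contra hne
  have h1 : x ∈ A.erase y := mem_erase.2 ⟨hne, hx⟩
  rw [← h] at h1
  exact (notMem_erase x A) h1

theorem fe_inj (D : Design d k n V J) (φ : V ↪ ℕ) {j j' : J} {e e' : Bool}
    (h : D.fe φ j e = D.fe φ j' e') : j = j' ∧ e = e' := by
  unfold Design.fe at h
  have h0 := map_injective φ h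
  by_cases hc : D.cl j = D.cl j'
  · rw [← hc] at h0
    have h1 := erase_inj (D.q_mem j (!e)) h0
    obtain ⟨h2, h3⟩ := D.q_inj _ _ _ _ h1
    refine ⟨h2, ?_⟩
    cases e <;> cases e' <;> simp_all
  · exfalso
    have h1 := D.B_inter _ _ hc
    have h2 : (D.B (D.cl j)).erase (D.q j (!e)) ⊆ D.B (D.cl j) ∩ D.B (D.cl j') := by
      apply subset_inter (erase_subset _ _)
      rw [h0]; exact erase_subset _ _
    have h3 := card_le_card h2
    rw [card_erase_of_mem (D.q_mem j _), D.B_card] at h3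
    omega

/-- the flipped frame -/
def flip (D : Design d k n V J) (j : J) (φ : V ↪ ℕ) : V ↪ ℕ :=
  (Equiv.swap (D.q j false) (D.q j true)).toEmbedding.trans φ

theorem flip_apply (D : Design d k n V J) (j : J) (φ : V ↪ ℕ) (v : V) :
    flip D j φ v = φ (Equiv.swap (D.q j false) (D.q j true) v) := rfl

/-- membership in a set which is invariant under the flip -/
theorem swap_mem {A : Finset V} {x y : V} (h : x ∈ A ↔ y ∈ A) (v : V) :
    Equiv.swap x y v ∈ A ↔ v ∈ A := by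
  by_cases h1 : v = x
  · subst h1; rw [Equiv.swap_apply_left]; exact h.symm
  · by_cases h2 : v = y
    · subst h2; rw [Equiv.swap_apply_right]; exact h
    · rw [Equiv.swap_apply_of_ne_of_ne h1 h2]

theorem map_flip {D : Design d k n V J} {j : J} {φ : V ↪ ℕ} {A : Finset V}
    (h : D.q j false ∈ A ↔ D.q j true ∈ A) : A.map (flip D j φ) = A.map φ := by
  ext x
  simp only [mem_map, flip_apply]
  constructor
  · rintro ⟨v, hv, rfl⟩
    exact ⟨_, (swap_mem h v).2 hv, rfl⟩
  · rintro ⟨v, hv, rfl⟩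
    refine ⟨Equiv.swap (D.q j false) (D.q j true) v, (swap_mem h v).2 hv, ?_⟩
    rw [Equiv.swap_apply_self]

theorem fe_inv (D : Design d k n V J) {i j : J} (hij : i ≠ j) (e : Bool) :
    D.q j false ∈ (D.B (D.cl i)).erase (D.q i (!e)) ↔
      D.q j true ∈ (D.B (D.cl i)).erase (D.q i (!e)) := by
  simp only [mem_erase]
  rw [D.q_pair j (D.cl i)]
  have h1 : ∀ b, D.q j b ≠ D.q i (!e) := fun b h => hij (D.q_inj _ _ _ _ h).1.symm
  simp [h1]

theorem flip_fe (D : Design d k n V J) (φ : V ↪ ℕ) {i j : J} (hij : i ≠ j) (e : Bool) :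
    D.fe (flip D j φ) i e = D.fe φ i e := by
  unfold Design.fe
  exact map_flip (fe_inv D hij e)

theorem flip_f (D : Design d k n V J) (φ : V ↪ ℕ) (j : J) :
    (D.f j).map (flip D j φ) = D.fe φ j true := by
  unfold Design.f Design.fe
  ext x
  simp only [mem_map, flip_apply, Bool.not_true, mem_erase]
  constructor
  · rintro ⟨v, ⟨hv1, hv2⟩, rfl⟩
    refine ⟨_, ⟨?_, (swap_mem (D.q_pair j (D.cl j)) v).2 hv2⟩, rfl⟩
    intro h
    rw [Equiv.swap_apply_eq_iff, Equiv.swap_apply_left] at h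
    exact hv1 h
  · rintro ⟨v, ⟨hv1, hv2⟩, rfl⟩
    refine ⟨Equiv.swap (D.q j false) (D.q j true) v,
      ⟨?_, (swap_mem (D.q_pair j (D.cl j)) v).2 hv2⟩, ?_⟩
    · intro h
      rw [Equiv.swap_apply_eq_iff, Equiv.swap_apply_right] at h
      exact hv1 h
    · rw [Equiv.swap_apply_self]

theorem flip_univ (D : Design d k n V J) (φ : V ↪ ℕ) (j : J) :
    (univ : Finset V).map (flip D j φ) = univ.map φ :=
  map_flip (by simp)

theorem flip_NBc (D : Design d k n V J) (φ : V ↪ ℕ) {j₀ j : J} (hj : j₀ ≠ j) {g₂ : Finset ℕ}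
    (h : D.NBc j₀ φ g₂) : D.NBc j₀ (flip D j φ) g₂ := by
  obtain ⟨o, h1, h2, h3, h4⟩ := h
  refine ⟨o, h1, h2, h3, fun v hv => ?_⟩
  rw [flip_apply] at hv
  obtain ⟨h5, h6⟩ := h4 _ hv
  have h7 := (swap_mem (A := D.f j₀) (x := D.q j false) (y := D.q j true)
    (by simpa [Design.f] using fe_inv D hj false) v).1 h5
  refine ⟨h7, fun h8 => h6 ?_⟩
  rw [h8, Equiv.swap_apply_of_ne_of_ne (h3 j false) (h3 j true)]

end Pair39

open Pair39 in
theorem pa : S_PA := by
  classical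
  intro d k n V J _ _ _ _ D F S hP
  obtain ⟨φ, I, j₀, g₁, g₂, hmin, hj₀, hI, hg₁, hg₂, hne, hdis, hNB, hS, hF, hFS, huniq⟩ := hP
  -- the pair to be answered
  obtain ⟨j, hjI, e, heF, hoth⟩ : ∃ j, j ∉ I ∧ ∃ e, D.fe φ j e ∉ F ∧
      ∀ j' ∉ I, j' ≠ j → ∀ e', D.fe φ j' e' ∉ F := by
    by_cases hA : ∃ j, j ∉ I ∧ ∃ e, D.fe φ j e ∈ F
    · obtain ⟨j, hjI, e, he⟩ := hA
      refine ⟨j, hjI, !e, fun h => ?_, fun j' hj' hne' e' h => ?_⟩
      · have := (huniq j hjI j hjI _ _ he h).2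
        cases e <;> simp at this
      · exact hne' (huniq j' hj' j hjI _ _ h he).1
    · obtain ⟨j, hj⟩ : ∃ j, j ∉ I := by
        by_contra h
        push Not at h
        exact hI (eq_univ_iff_forall.2 h)
      refine ⟨j, hj, false, fun h => hA ⟨j, hj, false, h⟩, fun j' hj' _ e' h => hA ⟨j', hj', e', h⟩⟩
  -- the new frame
  obtain ⟨φ', hf, hfe, huniv, hNB'⟩ : ∃ φ' : V ↪ ℕ, (D.f j).map φ' = D.fe φ j e ∧
      (∀ i, i ≠ j → ∀ e', D.fe φ' i e' = D.fe φ i e') ∧
      (univ : Finset V).map φ' = univ.map φ ∧ D.NBc j₀ φ' g₂ := by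
    cases e
    · exact ⟨φ, rfl, fun _ _ _ => rfl, rfl, hNB⟩
    · refine ⟨flip D j φ, flip_f D φ j, fun i hi e' => flip_fe D φ hi e', flip_univ D φ j,
        flip_NBc D φ (fun h : j₀ = j => hjI (h ▸ hj₀)) hNB⟩
  have hsS : D.fe φ j e ∉ S := by
    rw [hS]
    intro h
    obtain ⟨i, hi, hie⟩ := mem_image.1 h
    have := (fe_inj D φ (show D.fe φ i false = D.fe φ j e from hie)).1
    exact hjI (this ▸ hi)
  refine ⟨D.fe φ j e, fe_card D φ j e, heF, hsS, ?_⟩
  intro g hgk hgF hgS hgs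
  have hS' : insert (D.fe φ j e) S = (insert j I).image (fun i => (D.f i).map φ') := by
    rw [image_insert, hf, hS]
    congr 1
    apply image_congr
    intro i hi
    have hij : i ≠ j := fun h => hjI (h ▸ hi)
    exact (hfe i hij false).symm
  have hFS' : Disjoint (insert g F) (insert (D.fe φ j e) S) := by
    rw [disjoint_insert_left, disjoint_insert_right]
    refine ⟨?_, heF, hFS⟩
    rw [mem_insert, not_or]
    exact ⟨hgs, hgS⟩
  have hF' : (insert g F).card = (insert j I).card + 1 := by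
    rw [card_insert_of_notMem hgF, card_insert_of_notMem hjI, hF]
  by_cases hu : insert j I = univ
  · right
    refine ⟨φ', j₀, g₁, g₂, hmin, mem_insert_of_mem hg₁, mem_insert_of_mem hg₂, hne,
      by rw [huniv]; exact hdis, hNB', ?_, ?_, hFS'⟩
    · rw [hS', hu]; rfl
    · rw [hF', hu, card_univ]
  · left
    refine ⟨φ', insert j I, j₀, g₁, g₂, hmin, mem_insert_of_mem hj₀, hu, mem_insert_of_mem hg₁,
      mem_insert_of_mem hg₂, hne, by rw [huniv]; exact hdis, hNB', hS', hF', hFS', ?_⟩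
    intro j1 h1 j2 h2 e1 e2 hm1 hm2
    rw [mem_insert, not_or] at h1 h2
    rw [hfe j1 h1.1, mem_insert] at hm1
    rw [hfe j2 h2.1, mem_insert] at hm2
    have e1' := hm1.resolve_right (hoth j1 h1.2 h1.1 e1)
    have e2' := hm2.resolve_right (hoth j2 h2.2 h2.1 e2)
    exact fe_inj D φ (e1'.trans e2'.symm)

end Pool.Agent.Helper65K9.SR
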