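import Pool.Agent.Helper65K9.SR.Defs

set_option autoImplicit false

namespace Pool.Agent.Helper65K9.SR

open Finset

variable {d k n : ℕ} {V J : Type} [Fintype V] [DecidableEq V] [Fintype J] [DecidableEq J]

theorem f_card (D : Design d k n V J) (j : J) : (D.f j).card = k := by
  have h := D.q_mem j true
  unfold Design.f
  rw [card_erase_of_mem h, D.B_card]
  rfl

theorem f_sub (D : Design d k n V J) (j : J) : D.f j ⊆ D.B (D.cl j) := erase_subset _ _

theorem f_inter_same (D : Design d k n V J) {i j : J} (h : D.cl i = D.cl j) :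
    k ≤ (D.f i ∩ D.f j).card + 1 := by
  have h1 : (D.f i \ D.f j).card ≤ 1 := by
    refine (card_le_card (t := {D.q j true}) ?_).trans (card_singleton _).le
    intro v hv
    rw [mem_sdiff] at hv
    have h2 := f_sub D i hv.1
    rw [h] at h2
    rw [mem_singleton]
    by_contra h3
    exact hv.2 (mem_erase.2 ⟨h3, h2⟩)
  have h2 := card_inter_add_card_sdiff (D.f i) (D.f j)
  rw [f_card] at h2
  omega

theorem f_inter_diff (D : Design d k n V J) {i j : J} (h : D.cl i ≠ D.cl j) :
    (D.f i ∩ D.f j).card + 2 ≤ k := by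
  have h1 := D.B_inter _ _ h
  have h2 := card_le_card (inter_subset_inter (f_sub D i) (f_sub D j))
  omega

theorem f_inj (D : Design d k n V J) {i j : J} (h : D.f i = D.f j) : i = j := by
  by_cases hc : D.cl i = D.cl j
  · by_contra hij
    have h1 : D.q j true ∈ D.f i := by
      refine mem_erase.2 ⟨fun h2 => hij (D.q_inj _ _ _ _ h2).1.symm, ?_⟩
      rw [hc]
      exact D.q_mem j true
    rw [h] at h1
    exact (mem_erase.1 h1).1 rfl
  · have h1 := f_inter_diff D hc
    rw [h, inter_self, f_card] at h1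
    omega

theorem mem_K (D : Design d k n V J) (ψ : V ↪ ℕ) (s : Finset ℕ) :
    s ∈ D.K ψ ↔ ∃ j, (D.f j).map ψ = s := by
  unfold Design.K
  simp [mem_image]

theorem inj_id {n : ℕ} (π : Fin n → Fin n) (hπ : Function.Injective π) (h : ∀ r, r ≤ π r) (r : Fin n) :
    π r = r := by
  have h1 : ∑ r, (π r : ℕ) = ∑ r : Fin n, (r : ℕ) :=
    Function.Bijective.sum_comp (Finite.injective_iff_bijective.1 hπ) (fun r : Fin n => (r : ℕ))
  have h2 := (sum_eq_sum_iff_of_le (s := univ) (f := fun r : Fin n => (r : ℕ))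
    (g := fun r => (π r : ℕ)) (fun r _ => h r)).1 h1.symm r (mem_univ r)
  exact (Fin.ext h2).symm

theorem rg1 : S_RG1 := by
  classical
  intro d k n V J _ _ _ _ D φ ψ hbad
  -- the map of good edges
  have hτ : ∀ j, ∃ i, (D.f j).map φ ∈ D.K ψ → (D.f i).map ψ = (D.f j).map φ := by
    intro j
    by_cases h : (D.f j).map φ ∈ D.K ψ
    · obtain ⟨i, hi⟩ := (mem_K D ψ _).1 h
      exact ⟨i, fun _ => hi⟩
    · exact ⟨j, fun h' => absurd h' h⟩
  choose τ hτ using hτ
  have hint : ∀ i j, (D.f i).map φ ∈ D.K ψ → (D.f j).map φ ∈ D.K ψ →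
      (D.f i ∩ D.f j).card = (D.f (τ i) ∩ D.f (τ j)).card := by
    intro i j hi hj
    rw [← card_map φ, ← card_map ψ (s := D.f (τ i) ∩ D.f (τ j)), map_inter, map_inter, hτ i hi,
      hτ j hj]
  have key2 : ∀ i j, (D.f i).map φ ∈ D.K ψ → (D.f j).map φ ∈ D.K ψ → D.cl i = D.cl j →
      D.cl (τ i) = D.cl (τ j) := by
    intro i j hi hj h
    by_contra h2
    have h3 := f_inter_same D h
    have h4 := f_inter_diff D h2
    have := hint i j hi hj
    omega
  have key3 : ∀ i j, (D.f i).map φ ∈ D.K ψ → (D.f j).map φ ∈ D.K ψ → D.cl (τ i) = D.cl (τ j) →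
      D.cl i = D.cl j := by
    intro i j hi hj h
    by_contra h2
    have h3 := f_inter_same D h
    have h4 := f_inter_diff D h2
    have := hint i j hi hj
    omega
  have key4 : ∀ i j, (D.f i).map φ ∈ D.K ψ → (D.f j).map φ ∈ D.K ψ → τ i = τ j → i = j := by
    intro i j hi hj h
    apply f_inj D
    apply map_injective φ
    rw [← hτ i hi, ← hτ j hj, h]
  -- the good edges of a class
  have hgood : ∀ r, (univ.filter (fun j => D.cl j = r)).card ≤
      (univ.filter (fun j => D.cl j = r ∧ (D.f j).map φ ∈ D.K ψ)).card + d := by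
    intro r
    have h1 : univ.filter (fun j => D.cl j = r) ⊆
        univ.filter (fun j => D.cl j = r ∧ (D.f j).map φ ∈ D.K ψ) ∪
        univ.filter (fun j => (D.f j).map φ ∉ D.K ψ) := by
      intro j hj
      rw [mem_filter] at hj
      rw [mem_union, mem_filter, mem_filter]
      by_cases h : (D.f j).map φ ∈ D.K ψ
      · exact Or.inl ⟨mem_univ _, hj.2, h⟩
      · exact Or.inr ⟨mem_univ _, h⟩
    have h2 := (card_le_card h1).trans (card_union_le _ _)
    omega
  have hex : ∀ r, ∃ j, D.cl j = r ∧ (D.f j).map φ ∈ D.K ψ := by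
    intro r
    have h1 := hgood r
    have h2 := D.cls_card r
    obtain ⟨j, hj⟩ := card_pos.1 (show 0 <
      (univ.filter (fun j => D.cl j = r ∧ (D.f j).map φ ∈ D.K ψ)).card by omega)
    exact ⟨j, (mem_filter.1 hj).2⟩
  choose c hc1 hc2 using hex
  have hπ : ∀ r, D.cl (τ (c r)) = r := by
    refine inj_id (fun r => D.cl (τ (c r))) ?_ ?_
    · intro r r' h
      have := key3 _ _ (hc2 r) (hc2 r') h
      rwa [hc1, hc1] at this
    · intro r
      by_contra h
      have h1 := D.cls_gap (D.cl (τ (c r))) r (not_le.1 h)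
      have h2 := hgood r
      have h3 : (univ.filter (fun j => D.cl j = r ∧ (D.f j).map φ ∈ D.K ψ)).card ≤
          (univ.filter (fun j => D.cl j = D.cl (τ (c r)))).card := by
        refine card_le_card_of_injOn τ ?_ ?_
        · intro j hj
          have hj' := (mem_filter.1 (mem_coe.1 hj)).2
          rw [coe_filter]
          exact ⟨mem_univ _, key2 _ _ hj'.2 (hc2 r) (by rw [hj'.1, hc1])⟩
        · intro i hi j hj h
          exact key4 _ _ (mem_filter.1 (mem_coe.1 hi)).2.2 (mem_filter.1 (mem_coe.1 hj)).2.2 h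
      omega
  have hcl : ∀ j, (D.f j).map φ ∈ D.K ψ → D.cl (τ j) = D.cl j := by
    intro j hj
    have h1 := key2 j (c (D.cl j)) hj (hc2 _) (by rw [hc1])
    rw [h1, hπ]
  have hsub : ∀ r v, v ∈ D.B r → φ v ∈ (D.B r).map ψ := by
    intro r v hv
    have h1 := hgood r
    have h2 := D.cls_card r
    obtain ⟨i, hi, j, hj, hij⟩ := one_lt_card.1 (show 1 <
      (univ.filter (fun j => D.cl j = r ∧ (D.f j).map φ ∈ D.K ψ)).card by omega)
    have h3 : ∃ j, D.cl j = r ∧ (D.f j).map φ ∈ D.K ψ ∧ v ≠ D.q j true := by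
      by_cases hvi : v = D.q i true
      · refine ⟨j, (mem_filter.1 hj).2.1, (mem_filter.1 hj).2.2, ?_⟩
        intro h
        rw [hvi] at h
        exact hij (D.q_inj _ _ _ _ h).1
      · exact ⟨i, (mem_filter.1 hi).2.1, (mem_filter.1 hi).2.2, hvi⟩
    obtain ⟨l, hl1, hl2, hl3⟩ := h3
    have h4 : v ∈ D.f l := by
      refine mem_erase.2 ⟨hl3, ?_⟩
      rw [hl1]
      exact hv
    have h5 : φ v ∈ (D.f l).map φ := mem_map_of_mem _ h4
    rw [← hτ l hl2] at h5
    have h6 := map_subset_map (f := ψ) |>.2 (f_sub D (τ l)) h5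
    rwa [hcl l hl2, hl1] at h6
  have heq : ∀ r, (D.B r).map φ = (D.B r).map ψ := by
    intro r
    refine eq_of_subset_of_card_le ?_ (by rw [card_map, card_map])
    intro x hx
    obtain ⟨v, hv, rfl⟩ := mem_map.1 hx
    exact hsub r v hv
  refine ⟨?_, fun r v => ⟨fun h => ?_, hsub r v⟩⟩
  · refine eq_of_subset_of_card_le ?_ (by rw [card_map, card_map])
    intro x hx
    obtain ⟨v, _, rfl⟩ := mem_map.1 hx
    obtain ⟨r, hr⟩ := D.cover v
    exact map_subset_map.2 (subset_univ _) (hsub r v hr)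
  · rw [← heq, mem_map'] at h
    exact h

/-- the comparison of the two frames -/
theorem theta (D : Design d k n V J) (φ ψ : V ↪ ℕ) (h1 : (univ : Finset V).map φ = univ.map ψ)
    (h2 : ∀ r v, φ v ∈ (D.B r).map ψ ↔ v ∈ D.B r) :
    ∃ θ : V → V, (∀ v, ψ (θ v) = φ v) ∧ Function.Injective θ ∧ ∀ v r, θ v ∈ D.B r ↔ v ∈ D.B r := by
  have h3 : ∀ v, ∃ v', ψ v' = φ v := by
    intro v
    have h4 : φ v ∈ (univ : Finset V).map φ := mem_map_of_mem _ (mem_univ _)
    rw [h1] at h4
    obtain ⟨v', _, hv'⟩ := mem_map.1 h4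
    exact ⟨v', hv'⟩
  choose θ hθ using h3
  refine ⟨θ, hθ, ?_, ?_⟩
  · intro v v' h
    apply φ.injective
    rw [← hθ, ← hθ, h]
  · intro v r
    rw [← h2 r v, ← hθ v, mem_map']

theorem map_theta (φ ψ : V ↪ ℕ) {θ : V → V} (hθ : ∀ v, ψ (θ v) = φ v) {s t : Finset V}
    (h : ∀ v ∈ s, θ v ∈ t) (hc : t.card ≤ s.card) : s.map φ = t.map ψ := by
  refine eq_of_subset_of_card_le ?_ (by rw [card_map, card_map]; exact hc)
  intro x hx
  obtain ⟨v, hv, rfl⟩ := mem_map.1 hx
  rw [← hθ v]
  exact mem_map_of_mem _ (h v hv)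

theorem rg2 : S_RG2 := by
  classical
  intro d k n V J _ _ _ _ D φ ψ y y' hbad hy hy' hX
  obtain ⟨h1, h2⟩ := rg1 d k n V J D φ ψ hbad
  obtain ⟨θ, hθ, hinj, hB⟩ := theta D φ ψ h1 h2
  have hq0 : ∀ j, θ (D.q j false) = D.q j false := by
    intro j
    have h3 := D.pat_q j false (θ (D.q j false)) (hB _)
    rcases h3 with h3 | h3
    · exact h3
    · exfalso
      have h4 : φ (D.q j false) ∈ (insert y D.X).map φ :=
        mem_map_of_mem _ (mem_insert_of_mem (D.qf_X j))
      rw [hX, ← hθ, mem_map', h3, mem_insert] at h4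
      rcases h4 with h4 | h4
      · rw [← h4] at hy'
        unfold Design.Y at hy'
        rw [mem_insert, mem_insert] at hy'
        rcases hy' with h5 | h5 | h5
        · exact D.q_ne_a _ _ h5
        · exact D.q_ne_b _ _ h5
        · exact D.q_C _ _ h5
      · exact D.qt_X j h4
  have hq1 : ∀ j, θ (D.q j true) = D.q j true := by
    intro j
    have h3 := D.pat_q j true (θ (D.q j true)) (hB _)
    rcases h3 with h3 | h3
    · exfalso
      have h4 := hinj (h3.trans (hq0 j).symm)
      exact absurd (D.q_inj _ _ _ _ h4).2 (by decide)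
    · exact h3
  have hf : ∀ j, (D.f j).map φ = (D.f j).map ψ := by
    intro j
    refine map_theta φ ψ hθ ?_ le_rfl
    intro v hv
    unfold Design.f at hv ⊢
    rw [mem_erase] at hv ⊢
    refine ⟨fun h => hv.1 (hinj (h.trans (hq1 j).symm)), (hB _ _).2 hv.2⟩
  unfold Design.K
  exact image_congr fun j _ => hf j

theorem rg3 : S_RG3 := by
  classical
  intro d k n V J _ _ _ _ D φ ψ hK
  have hall : ∀ j, (D.f j).map φ ∈ D.K ψ := by
    intro j
    rw [← hK, mem_K]
    exact ⟨j, rfl⟩
  obtain ⟨h1, h2⟩ := rg1 d k n V J D φ ψ (by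
    rw [filter_false_of_mem fun j _ => not_not.2 (hall j)]
    simp)
  obtain ⟨θ, hθ, hinj, hB⟩ := theta D φ ψ h1 h2
  have hq1 : ∀ j, θ (D.q j true) = D.q j true := by
    intro j
    obtain ⟨i, hi⟩ := (mem_K D ψ _).1 (hall j)
    have hmem : ∀ v, v ∈ D.f j → θ v ∈ D.f i := by
      intro v hv
      have h3 : φ v ∈ (D.f j).map φ := mem_map_of_mem _ hv
      rwa [← hi, ← hθ, mem_map'] at h3
    have hcl : D.cl i = D.cl j := by
      by_contra h
      have h3 := D.B_inter _ _ h
      have h4 : ((D.f j).image θ) ⊆ D.B (D.cl i) ∩ D.B (D.cl j) := by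
        intro x hx
        obtain ⟨v, hv, rfl⟩ := mem_image.1 hx
        exact mem_inter.2 ⟨f_sub D i (hmem v hv), (hB _ _).2 (f_sub D j hv)⟩
      have h5 := card_le_card h4
      rw [card_image_of_injective _ hinj, f_card] at h5
      omega
    have h3 : θ (D.q j true) = D.q i true := by
      by_contra h
      have h4 : θ (D.q j true) ∈ D.f i := by
        refine mem_erase.2 ⟨h, ?_⟩
        rw [hcl]
        exact (hB _ _).2 (D.q_mem j true)
      have h5 : φ (D.q j true) ∈ (D.f i).map ψ := by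
        rw [← hθ, mem_map']
        exact h4
      rw [hi, mem_map'] at h5
      exact (mem_erase.1 h5).1 rfl
    have h4 := D.pat_q j true (θ (D.q j true)) (hB _)
    rcases h4 with h4 | h4
    · exfalso
      rw [h3] at h4
      exact absurd (D.q_inj _ _ _ _ h4).2 (by decide)
    · exact h4
  have hq0 : ∀ j, θ (D.q j false) = D.q j false := by
    intro j
    have h3 := D.pat_q j false (θ (D.q j false)) (hB _)
    rcases h3 with h3 | h3
    · exact h3
    · exfalso
      have h4 := hinj (h3.trans (hq1 j).symm)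
      exact absurd (D.q_inj _ _ _ _ h4).2 (by decide)
  refine ⟨map_theta φ ψ hθ ?_ le_rfl, ?_⟩
  · intro v hv
    by_cases h : ∃ j, v = D.q j false
    · obtain ⟨j, rfl⟩ := h
      rw [hq0]
      exact hv
    · push Not at h
      exact (D.pat_X v (θ v) (fun r => (hB v r).symm) hv h).1
  · have ha := D.pat_a (θ D.a) (hB _)
    have hb := D.pat_a (θ D.b) (fun r => (hB _ r).trans (D.ab_pair r).symm)
    rcases ha with ha | ha
    · left
      refine ⟨by rw [← hθ, ha], ?_⟩
      rcases hb with hb | hb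
      · exact absurd (hinj (ha.trans hb.symm)) D.a_ne_b
      · rw [← hθ, hb]
    · right
      refine ⟨by rw [← hθ, ha], ?_⟩
      rcases hb with hb | hb
      · rw [← hθ, hb]
      · exact absurd (hinj (ha.trans hb.symm)) D.a_ne_b

end Pool.Agent.Helper65K9.SR
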