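import Pool.Agent.Helper65K9.SR.Defs

/-!
[ST] Strategy stealing (helper39).
-/

set_option autoImplicit false

namespace Pool.Agent.Helper65K9.SR

open Finset

namespace Play39

/-- A sequence defined by recursion on its own history. -/
theorem exists_play {α : Type} (next : List α → α) :
    ∃ c : ℕ → α, ∀ i, c i = next (List.ofFn (fun j : Fin i => c j)) := by
  let hist : ℕ → List α := fun n => Nat.rec [] (fun _ l => l ++ [next l]) n
  have h1 : ∀ n, hist (n + 1) = hist n ++ [next (hist n)] := fun n => rfl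
  have key : ∀ n, hist n = List.ofFn (fun j : Fin n => next (hist j)) := by
    intro n
    induction n with
    | zero => simp [hist]
    | succ n ih =>
      rw [h1, List.ofFn_succ_last]
      congr 1
  exact ⟨fun i => next (hist i), fun i => by
    show next (hist i) = next (List.ofFn (fun j : Fin i => next (hist j)))
    rw [← key i]⟩

/-- There is a fresh `k`-set outside a finite family. -/
theorem exists_fresh {k : ℕ} (hk : 0 < k) (A : Finset (Finset ℕ)) :
    ∃ s : Finset ℕ, s.card = k ∧ s ∉ A := by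
  have hinj : Function.Injective (fun M : ℕ => (Finset.Ico M (M + k))) := by
    intro M M' h
    have h1 : M ∈ Finset.Ico M' (M' + k) := by
      rw [← show Finset.Ico M (M + k) = Finset.Ico M' (M' + k) from h]; simp [hk]
    have h2 : M' ∈ Finset.Ico M (M + k) := by
      rw [show Finset.Ico M (M + k) = Finset.Ico M' (M' + k) from h]; simp [hk]
    simp only [Finset.mem_Ico] at h1 h2
    omega
  obtain ⟨s, ⟨M, rfl⟩, hs⟩ := (Set.infinite_range_of_injective hinj).exists_notMem_finset A
  exact ⟨_, by simp, hs⟩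

/-- The coupled play of the strategy `t` against itself. -/
theorem coupled {k : ℕ} (hk : 0 < k) (t : List (Finset ℕ) → Finset ℕ) :
    ∃ m m' : ℕ → Finset ℕ,
      (∀ i : ℕ, Odd i → m i = t (List.ofFn (fun j : Fin i => m j))) ∧
      (∀ i : ℕ, Odd i → m' i = t (List.ofFn (fun j : Fin i => m' j))) ∧
      (∀ i : ℕ, Even i → (m i).card = k ∧ ∀ j < i, m j ≠ m i) ∧
      (∀ i : ℕ, Even i → (m' i).card = k ∧ ∀ j < i, m' j ≠ m' i) ∧
      (∀ i : ℕ, Even i → (m (i + 1)).card = k → (∀ j < i, m' j ≠ m (i + 1)) →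
        m' i = m (i + 1)) ∧
      (∀ i : ℕ, Odd i → (m' i).card = k → (∀ j < i + 1, m j ≠ m' i) → m (i + 1) = m' i) := by
  classical
  choose fr fr1 fr2 using fun A : Finset (Finset ℕ) => exists_fresh hk A
  let next : List (Finset ℕ × Finset ℕ) → Finset ℕ × Finset ℕ := fun l =>
    if l = [] then (fr ∅, fr ∅)
    else if Odd l.length then
      (t (l.map Prod.fst),
        if (t (l.map Prod.fst)).card = k ∧ t (l.map Prod.fst) ∉ (l.map Prod.snd).tail
        then t (l.map Prod.fst) else fr (l.map Prod.snd).tail.toFinset)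
    else
      (if (t (l.map Prod.snd).tail).card = k ∧ t (l.map Prod.snd).tail ∉ l.map Prod.fst
        then t (l.map Prod.snd).tail else fr (l.map Prod.fst).toFinset,
       t (l.map Prod.snd).tail)
  obtain ⟨c, hc⟩ := exists_play next
  have L1 : ∀ i, (List.ofFn (fun j : Fin i => c j)).map Prod.fst
      = List.ofFn (fun j : Fin i => (c j).1) := by
    intro i; rw [List.map_ofFn]; rfl
  have L2 : ∀ i, ((List.ofFn (fun j : Fin (i + 1) => c j)).map Prod.snd).tail
      = List.ofFn (fun j : Fin i => (c (j + 1)).2) := by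
    intro i; rw [List.map_ofFn, List.ofFn_succ, List.tail_cons]; rfl
  have N0 : c 0 = (fr ∅, fr ∅) := by rw [hc 0]; simp [next]
  have NO : ∀ i, Even i → c (i + 1) = (t (List.ofFn (fun j : Fin (i + 1) => (c j).1)),
      if (t (List.ofFn (fun j : Fin (i + 1) => (c j).1))).card = k ∧
        t (List.ofFn (fun j : Fin (i + 1) => (c j).1)) ∉ List.ofFn (fun j : Fin i => (c (j + 1)).2)
      then t (List.ofFn (fun j : Fin (i + 1) => (c j).1))
      else fr (List.ofFn (fun j : Fin i => (c (j + 1)).2)).toFinset) := by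
    intro i hi
    have ho : Odd (i + 1) := hi.add_one
    rw [hc (i + 1)]
    simp only [next]
    rw [if_neg (by rw [List.ofFn_eq_nil_iff]; omega), if_pos (by simpa using ho), L1, L2]
  have NE : ∀ i, Odd i → c (i + 1) = (
      if (t (List.ofFn (fun j : Fin i => (c (j + 1)).2))).card = k ∧
        t (List.ofFn (fun j : Fin i => (c (j + 1)).2)) ∉ List.ofFn (fun j : Fin (i + 1) => (c j).1)
      then t (List.ofFn (fun j : Fin i => (c (j + 1)).2))
      else fr (List.ofFn (fun j : Fin (i + 1) => (c j).1)).toFinset,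
      t (List.ofFn (fun j : Fin i => (c (j + 1)).2))) := by
    intro i hi
    have ho : ¬ Odd (i + 1) := by
      rw [Nat.not_odd_iff_even]; exact hi.add_one
    rw [hc (i + 1)]
    simp only [next]
    rw [if_neg (by rw [List.ofFn_eq_nil_iff]; omega), if_neg (by simpa using ho), L1, L2]
  refine ⟨fun i => (c i).1, fun i => (c (i + 1)).2, ?_, ?_, ?_, ?_, ?_, ?_⟩
  · intro i hi
    obtain ⟨r, rfl⟩ := hi
    have := NO (2 * r) (by simp)
    show (c (2 * r + 1)).1 = _
    rw [this]
  · intro i hi
    show (c (i + 1)).2 = _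
    rw [NE i hi]
  · intro i hi
    rcases Nat.eq_zero_or_pos i with rfl | hpos
    · refine ⟨?_, fun j hj => absurd hj (by omega)⟩
      show ((c 0).1).card = k
      rw [N0]; exact fr1 _
    · obtain ⟨r, rfl⟩ : ∃ r, i = r + 1 := ⟨i - 1, by omega⟩
      have hr : Odd r := by
        rcases Nat.even_or_odd r with h | h
        · exact absurd hi (by rw [Nat.not_even_iff_odd]; exact h.add_one)
        · exact h
      show ((c (r + 1)).1).card = k ∧ ∀ j < r + 1, (c j).1 ≠ (c (r + 1)).1
      have hE : (c (r + 1)).1 = if (t (List.ofFn (fun j : Fin r => (c (j + 1)).2))).card = k ∧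
        t (List.ofFn (fun j : Fin r => (c (j + 1)).2)) ∉ List.ofFn (fun j : Fin (r + 1) => (c j).1)
      then t (List.ofFn (fun j : Fin r => (c (j + 1)).2))
      else fr (List.ofFn (fun j : Fin (r + 1) => (c j).1)).toFinset := by
        rw [NE r hr]
      have hmem : ((c (r + 1)).1).card = k ∧
          (c (r + 1)).1 ∉ List.ofFn (fun j : Fin (r + 1) => (c j).1) := by
        rw [hE]
        split_ifs with h
        · exact h
        · exact ⟨fr1 _, fun h' => fr2 _ (List.mem_toFinset.2 h')⟩
      refine ⟨hmem.1, fun j hj h => hmem.2 ?_⟩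
      rw [List.mem_ofFn]
      exact ⟨⟨j, hj⟩, h⟩
  · intro i hi
    show ((c (i + 1)).2).card = k ∧ ∀ j < i, (c (j + 1)).2 ≠ (c (i + 1)).2
    have hE : (c (i + 1)).2 = if (t (List.ofFn (fun j : Fin (i + 1) => (c j).1))).card = k ∧
        t (List.ofFn (fun j : Fin (i + 1) => (c j).1)) ∉ List.ofFn (fun j : Fin i => (c (j + 1)).2)
      then t (List.ofFn (fun j : Fin (i + 1) => (c j).1))
      else fr (List.ofFn (fun j : Fin i => (c (j + 1)).2)).toFinset := by
      rw [NO i hi]
    have hmem : ((c (i + 1)).2).card = k ∧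
        (c (i + 1)).2 ∉ List.ofFn (fun j : Fin i => (c (j + 1)).2) := by
      rw [hE]
      split_ifs with h
      · exact h
      · exact ⟨fr1 _, fun h' => fr2 _ (List.mem_toFinset.2 h')⟩
    refine ⟨hmem.1, fun j hj h => hmem.2 ?_⟩
    rw [List.mem_ofFn]
    exact ⟨⟨j, hj⟩, h⟩
  · intro i hi hcard hne
    have h1 : (c (i + 1)).1 = t (List.ofFn (fun j : Fin (i + 1) => (c j).1)) := by
      rw [NO i hi]
    show (c (i + 1)).2 = (c (i + 1)).1
    have hE : (c (i + 1)).2 = if (t (List.ofFn (fun j : Fin (i + 1) => (c j).1))).card = k ∧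
        t (List.ofFn (fun j : Fin (i + 1) => (c j).1)) ∉ List.ofFn (fun j : Fin i => (c (j + 1)).2)
      then t (List.ofFn (fun j : Fin (i + 1) => (c j).1))
      else fr (List.ofFn (fun j : Fin i => (c (j + 1)).2)).toFinset := by
      rw [NO i hi]
    rw [hE, ← h1, if_pos]
    refine ⟨hcard, fun h => ?_⟩
    rw [List.mem_ofFn] at h
    obtain ⟨j, hj⟩ := h
    exact hne j j.2 hj
  · intro i hi hcard hne
    have h1 : (c (i + 1)).2 = t (List.ofFn (fun j : Fin i => (c (j + 1)).2)) := by
      rw [NE i hi]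
    show (c (i + 1)).1 = (c (i + 1)).2
    have hE : (c (i + 1)).1 = if (t (List.ofFn (fun j : Fin i => (c (j + 1)).2))).card = k ∧
        t (List.ofFn (fun j : Fin i => (c (j + 1)).2)) ∉ List.ofFn (fun j : Fin (i + 1) => (c j).1)
      then t (List.ofFn (fun j : Fin i => (c (j + 1)).2))
      else fr (List.ofFn (fun j : Fin (i + 1) => (c j).1)).toFinset := by
      rw [NE i hi]
    rw [hE, ← h1, if_pos]
    refine ⟨hcard, fun h => ?_⟩
    rw [List.mem_ofFn] at h
    obtain ⟨j, hj⟩ := h
    exact hne j j.2 hj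

end Play39

open Play39 in
theorem st : S_ST := by
  classical
  intro k n H hk
  rintro ⟨t, ht⟩
  obtain ⟨m, m', hm, hm', he, he', hy, hx⟩ := coupled hk t
  obtain ⟨N, hNo, hNl, ⟨f, hf, hfH⟩, hNn⟩ := ht m hm he
  obtain ⟨N', hNo', hNl', ⟨f', hf', hfH'⟩, hNn'⟩ := ht m' hm' he'
  -- the invariants
  have key : ∀ r : ℕ, (∀ i, i + 1 ≤ r → i + 1 ≤ N → Even i → i ≤ N' + 1 → m' i = m (i + 1)) ∧
      (∀ i, i + 1 ≤ r → i ≤ N' → i ≤ N → Odd i → ∃ j, j ≤ i + 1 ∧ Even j ∧ m j = m' i) := by
    intro r
    induction r with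
    | zero =>
      exact ⟨fun i h => absurd h (by omega), fun i h => absurd h (by omega)⟩
    | succ r ih =>
      obtain ⟨ih1, ih2⟩ := ih
      refine ⟨?_, ?_⟩
      · intro i hir hiN hie hiN'
        rcases Nat.lt_or_ge i r with hlt | hge
        · exact ih1 i (by omega) hiN hie hiN'
        · have hir' : i = r := by omega
          subst hir'
          have hodd : Odd (i + 1) := hie.add_one
          obtain ⟨hc1, hc2⟩ := hNl (i + 1) hiN hodd
          apply hy i hie hc1
          intro j hj heq
          rcases Nat.even_or_odd j with hje | hjo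
          · have h2 := ih1 j (by omega) (by omega) hje (by omega)
            exact hc2 (j + 1) (by omega) (by rw [← h2, heq])
          · have hj1 : j + 1 ≤ i := hj
            obtain ⟨a, ha, hae, ham⟩ := ih2 j (by omega) (by omega) (by omega) hjo
            exact hc2 a (by omega) (by rw [ham, heq])
      · intro i hir hiN' hiN hio
        rcases Nat.lt_or_ge i r with hlt | hge
        · exact ih2 i (by omega) hiN' hiN hio
        · have hir' : i = r := by omega
          subst hir'
          obtain ⟨hc1, hc2⟩ := hNl' i hiN' hio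
          by_cases hcase : ∀ j < i + 1, m j ≠ m' i
          · exact ⟨i + 1, le_refl _, hio.add_one, hx i hio hc1 hcase⟩
          · push Not at hcase
            obtain ⟨j, hj, hjm⟩ := hcase
            rcases Nat.even_or_odd j with hje | hjo
            · exact ⟨j, by omega, hje, hjm⟩
            · exfalso
              obtain ⟨s, rfl⟩ := hjo
              have h2 := ih1 (2 * s) (by omega) (by omega) (by simp) (by omega)
              exact hc2 (2 * s) (by omega) (by rw [h2, hjm])
  rcases Nat.lt_or_ge N' N with hlt | hge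
  · -- the imaginary game is won first
    apply hNn
    refine ⟨f', hf', fun e heH => ?_⟩
    obtain ⟨i, hi, hio, him⟩ := hfH' e heH
    obtain ⟨j, hj, hje, hjm⟩ := (key (i + 1)).2 i (le_refl _) hi (by omega) hio
    refine ⟨j, ?_, hje, by rw [hjm, him]⟩
    -- j ≤ i + 1 ≤ N' + 1 ≤ N and j even, N odd
    rcases Nat.lt_or_ge j N with h | h
    · exact h
    · exfalso
      have : j = N := by omega
      subst this
      exact (Nat.not_odd_iff_even.2 hje) hNo
  · apply hNn'
    refine ⟨f, hf, fun e heH => ?_⟩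
    obtain ⟨i, hi, hio, him⟩ := hfH e heH
    obtain ⟨s, rfl⟩ := hio
    have h2 := (key (2 * s + 1)).1 (2 * s) (le_refl _) hi (by simp) (by omega)
    exact ⟨2 * s, by omega, by simp, by rw [h2, him]⟩

end Pool.Agent.Helper65K9.SR
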