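import Pool.Agent.Helper65K9.SR.Kill
import Pool.Agent.Helper65K9.SR.Rigid
import Pool.Agent.Helper65K9.SR.Ga
import Pool.Agent.Helper65K9.SR.Steal
import Pool.Agent.Helper65K9.SR.Exist
import Pool.Agent.Helper65K9.SR.Frame
import Pool.Agent.Helper65K9.SR.Pairing

/-!
Assembly: invariant of the second player, target hypergraph on `Fin m`.
-/

set_option autoImplicit false

namespace Pool.Agent.Helper65K9.SR

open Finset

variable {d k n : ℕ} {V J : Type} [Fintype V] [DecidableEq V] [Fintype J] [DecidableEq J]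

namespace Design

variable (D : Design d k n V J)

/-- The invariant (second player to move). -/
def Inv (Y₀ : Finset V) (F S : Finset (Finset ℕ)) : Prop :=
  (∃ g : Finset ℕ, g.card = k ∧ F = {g} ∧ S = ∅) ∨ D.P1 F S ∨ D.P2 F S ∨ D.P2a Y₀ F S ∨
    D.P2b Y₀ F S ∨ D.P3 Y₀ F S ∨ D.P4 Y₀ F S ∨ D.Won Y₀ S

theorem inv_step {Y₀ : Finset V} (hY : IsY D Y₀) (hd : 3 ≤ d) {F S : Finset (Finset ℕ)}
    (h : D.Inv Y₀ F S) : ∃ s : Finset ℕ, s.card = k ∧ s ∉ F ∧ s ∉ S ∧
      ∀ g : Finset ℕ, g.card = k → g ∉ F → g ∉ S → g ≠ s →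
        D.Inv Y₀ (insert g F) (insert s S) := by
  have hk : 0 < k := by have := D.kpos; omega
  have hP3 : ∀ {F S : Finset (Finset ℕ)}, D.P3 Y₀ F S → ∃ s : Finset ℕ, s.card = k ∧ s ∉ F ∧
      s ∉ S ∧ ∀ g : Finset ℕ, g.card = k → g ∉ F → g ∉ S → g ≠ s →
        D.Inv Y₀ (insert g F) (insert s S) := by
    intro F S h
    obtain ⟨s, h1, h2, h3, h4⟩ := D.attack_step hY hd h
    refine ⟨s, h1, h2, h3, fun g g1 g2 g3 g4 => ?_⟩
    rcases h4 g g1 g2 g3 g4 with h | h
    · exact Or.inr (Or.inr (Or.inr (Or.inr (Or.inr (Or.inl h)))))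
    · exact Or.inr (Or.inr (Or.inr (Or.inr (Or.inr (Or.inr (Or.inl h))))))
  rcases h with ⟨g₁, hg₁, rfl, rfl⟩ | h | h | h | h | h | h | h
  · obtain ⟨s, h1, h2, h3⟩ := st1 fr mn d k n V J D g₁ hg₁
    refine ⟨s, h1, by rw [mem_singleton]; exact h2, notMem_empty _, fun g hg hg' _ hg'' => ?_⟩
    right; left
    have h4 := h3 g hg (fun h => hg' (mem_singleton.2 h)) hg''
    exact h4
  · obtain ⟨s, h1, h2, h3, h4⟩ := pa d k n V J D F S h
    refine ⟨s, h1, h2, h3, fun g g1 g2 g3 g4 => ?_⟩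
    rcases h4 g g1 g2 g3 g4 with h | h
    · exact Or.inr (Or.inl h)
    · exact Or.inr (Or.inr (Or.inl h))
  · rcases D.P2_step nb hY hd h with h | ⟨s, h1, h2, h3, h4⟩
    · exact hP3 h
    · refine ⟨s, h1, h2, h3, fun g g1 g2 g3 g4 => ?_⟩
      rcases h4 g g1 g2 g3 g4 with h | h
      · exact Or.inr (Or.inr (Or.inr (Or.inl h)))
      · exact Or.inr (Or.inr (Or.inr (Or.inr (Or.inl h))))
  · rcases D.P2a_step rg2 rg3 hY hd h with h | ⟨s, h1, h2, h3, h4⟩
    · exact hP3 h
    · refine ⟨s, h1, h2, h3, fun g g1 g2 g3 g4 => ?_⟩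
      exact Or.inr (Or.inr (Or.inr (Or.inl (h4 g g1 g2 g3 g4))))
  · exact hP3 (D.P2b_P3 rg2 hY hd h)
  · exact hP3 h
  · obtain ⟨s, h1, h2, h3, h4⟩ := D.race_step hY h
    refine ⟨s, h1, h2, h3, fun g g1 g2 g3 g4 => ?_⟩
    rcases h4 g g1 g2 g3 g4 with h | h
    · exact Or.inr (Or.inr (Or.inr (Or.inr (Or.inr (Or.inr (Or.inl h))))))
    · exact Or.inr (Or.inr (Or.inr (Or.inr (Or.inr (Or.inr (Or.inr h))))))
  · obtain ⟨φ, w, hw, hH⟩ := h
    obtain ⟨s, h1, h2, -⟩ := SR.exists_fresh_set hk (F ∪ S) ∅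
    rw [mem_union, not_or] at h2
    refine ⟨s, h1, h2.1, h2.2, fun g _ _ _ _ => ?_⟩
    exact Or.inr (Or.inr (Or.inr (Or.inr (Or.inr (Or.inr (Or.inr
      ⟨φ, w, hw, hH.trans (subset_insert _ _)⟩))))))

theorem inv_safe {Y₀ : Finset V} (hY : IsY D Y₀) (hd : 3 ≤ d) {F S : Finset (Finset ℕ)}
    (h : D.Inv Y₀ F S) (hF : D.Won Y₀ F) : D.Won Y₀ S := by
  obtain ⟨ψ, w, hw, hH⟩ := hF
  have hc := D.H_card hY hw
  have hle := card_le_card hH
  have hP3 : D.P3 Y₀ F S → False := by
    rintro ⟨φ, -, hFS, hA, -⟩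
    have h1 := hA ψ w hw (disjoint_of_subset_left hH hFS)
    rw [inter_eq_left.2 hH] at h1
    omega
  rcases h with ⟨g₁, hg₁, rfl, rfl⟩ | h | h | h | h | h | h | h
  · exfalso
    rw [card_singleton] at hle
    omega
  · exfalso
    obtain ⟨φ, I, j₀, g₁, g₂, -, -, hI, -, -, -, -, -, -, hFc, -⟩ := h
    have h1 : I.card < Fintype.card J := by
      rw [← card_univ]
      exact card_lt_card ((ssubset_univ_iff).2 hI)
    omega
  · exfalso
    obtain ⟨φ, j₀, g₁, g₂, -, -, -, -, -, -, -, hFc, -⟩ := h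
    omega
  · exfalso
    obtain ⟨φ, φ₁, g₁, g, DL, wl, -, hFS, -, -, rfl, h1, h2⟩ := h
    have hdj := disjoint_of_subset_left hH hFS
    have h3 := inter_eq_left.2 hH
    obtain ⟨-, -, -, -, h4⟩ := D.P2a_struct rg2 rg3 hY hd h1 h2 hw hdj (by rw [h3]; omega)
    rw [h3] at h4
    omega
  · exact (hP3 (D.P2b_P3 rg2 hY hd h)).elim
  · exact (hP3 h).elim
  · exfalso
    obtain ⟨φ, z, L, -, -, hFS, -, hL, -, -, -, -, hA⟩ := h
    have h1 := hA ψ w hw (disjoint_of_subset_left hH hFS)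
    rw [inter_eq_left.2 hH] at h1
    omega
  · exact h

end Design

/-- The target on `Option V`. -/
def Hopt (D : Design d k n V J) (Y₀ : Finset V) : Finset (Finset (Option V)) :=
  univ.image (fun j => (D.f j).map Function.Embedding.some) ∪
    Y₀.image (fun y => insert none ((insert y D.X).map Function.Embedding.some))

/-- The function on `Option V` given by a frame and an apex. -/
def fo (φ : V ↪ ℕ) (w : ℕ) (o : Option V) : ℕ := o.elim w φ

theorem fo_inj {φ : V ↪ ℕ} {w : ℕ} (hw : w ∉ univ.map φ) : Function.Injective (fo φ w) := by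
  intro o o' h
  have hw' : ∀ v, φ v ≠ w := fun v h => hw (mem_map.2 ⟨v, mem_univ _, h⟩)
  cases o with
  | none =>
    cases o' with
    | none => rfl
    | some v' => exact absurd h.symm (hw' v')
  | some v =>
    cases o' with
    | none => exact absurd h (hw' v)
    | some v' =>
      have : φ v = φ v' := h
      rw [φ.injective this]

theorem image_Hopt (D : Design d k n V J) (Y₀ : Finset V) (φ : V ↪ ℕ) (w : ℕ) :
    (Hopt D Y₀).image (fun s => s.image (fo φ w)) = D.H Y₀ φ w := by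
  unfold Hopt Design.H Design.K
  rw [image_union, image_image, image_image]
  have key : ∀ A : Finset V, (A.map Function.Embedding.some).image (fo φ w) = A.map φ := by
    intro A
    ext x
    simp only [mem_image, mem_map, Function.Embedding.some_apply]
    constructor
    · rintro ⟨o, ⟨v, hv, rfl⟩, rfl⟩
      exact ⟨v, hv, rfl⟩
    · rintro ⟨v, hv, rfl⟩
      exact ⟨some v, ⟨v, hv, rfl⟩, rfl⟩
  congr 1
  · apply image_congr
    intro j _
    exact key _
  · apply image_congr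
    intro y _
    simp only [Function.comp]
    rw [image_insert, key]
    rfl

/-- Main theorem, in the form of the frozen statement. -/
theorem main (d : ℕ) (hd : 3 ≤ d) : ∃ (k n : ℕ) (H : Finset (Finset (Fin n))), 0 < k ∧ 0 < n ∧
    (∀ e ∈ H, e.card = k) ∧
    (∀ v : Fin n, d ≤ (H.filter (fun e => v ∈ e)).card) ∧
    ∃ P : Finset (Finset ℕ) → Finset (Finset ℕ) → Prop,
    (∀ g : Finset ℕ, g.card = k → P {g} ∅) ∧
    (∀ F S, P F S → ∃ s : Finset ℕ, s.card = k ∧ s ∉ F ∧ s ∉ S ∧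
      ∀ g : Finset ℕ, g.card = k → g ∉ F → g ∉ S → g ≠ s → P (insert g F) (insert s S)) ∧
    (∀ F S, P F S → HasCopy H F → HasCopy H S) := by
  obtain ⟨k, n, V, J, _, _, _, _, ⟨D⟩⟩ := ex d hd
  -- the link set
  obtain ⟨Y₀, hY⟩ : ∃ Y₀ : Finset V, IsY D Y₀ := by
    obtain ⟨T, hT, hTc⟩ := exists_subset_card_eq (s := D.C) (n := d - 2) (by
      have := D.C_card; omega)
    refine ⟨insert D.a (insert D.b T), ?_, mem_insert_self _ _,
      mem_insert_of_mem (mem_insert_self _ _), ?_⟩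
    · unfold Design.Y
      exact insert_subset_insert _ (insert_subset_insert _ hT)
    · have hb : D.b ∉ T := fun h => D.b_C (hT h)
      have ha : D.a ∉ insert D.b T := by
        rw [mem_insert, not_or]
        exact ⟨D.a_ne_b, fun h => D.a_C (hT h)⟩
      rw [card_insert_of_notMem ha, card_insert_of_notMem hb, hTc]
      omega
  have hk : 0 < k := by have := D.kpos; omega
  let m := Fintype.card (Option V)
  let e : Option V ≃ Fin m := Fintype.equivFin _
  let H : Finset (Finset (Fin m)) := (Hopt D Y₀).image (fun s => s.map e.toEmbedding)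
  have hm : 0 < m := Fintype.card_pos
  -- copies
  have himg : ∀ (φ : V ↪ ℕ) (w : ℕ), H.image (fun s => s.image (fo φ w ∘ e.symm)) =
      D.H Y₀ φ w := by
    intro φ w
    rw [← image_Hopt D Y₀ φ w]
    simp only [H]
    rw [image_image]
    apply image_congr
    intro s _
    simp only [Function.comp]
    ext x
    simp only [mem_image, mem_map_equiv]
    constructor
    · rintro ⟨i, hi, rfl⟩
      exact ⟨e.symm i, hi, rfl⟩
    · rintro ⟨o, ho, rfl⟩
      exact ⟨e o, by simpa using ho, by simp⟩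
  have hcopy : ∀ F : Finset (Finset ℕ), HasCopy H F ↔ D.Won Y₀ F := by
    intro F
    constructor
    · rintro ⟨f, hf, hfH⟩
      let φ : V ↪ ℕ := ⟨fun v => f (e (some v)), fun v v' h => by
        have h1 := e.injective (hf h)
        exact Option.some.inj h1⟩
      have hw : f (e none) ∉ univ.map φ := by
        intro h
        obtain ⟨v, -, hv⟩ := mem_map.1 h
        have h1 : f (e (some v)) = f (e none) := hv
        have h2 := e.injective (hf h1)
        exact Option.some_ne_none v h2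
      have hfe : f = fo φ (f (e none)) ∘ e.symm := by
        funext i
        simp only [Function.comp]
        obtain ⟨o, rfl⟩ := e.surjective i
        rw [e.symm_apply_apply]
        cases o with
        | none => rfl
        | some v => rfl
      refine ⟨φ, f (e none), hw, ?_⟩
      rw [← himg φ (f (e none)), ← hfe]
      intro s hs
      obtain ⟨t, ht, rfl⟩ := mem_image.1 hs
      exact hfH t ht
    · rintro ⟨φ, w, hw, hH⟩
      refine ⟨fo φ w ∘ e.symm, (fo_inj hw).comp e.symm.injective, ?_⟩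
      intro s hs
      apply hH
      rw [← himg φ w]
      exact mem_image_of_mem _ hs
  -- a frame
  obtain ⟨φ₀⟩ : Nonempty (V ↪ ℕ) := ⟨(Fintype.equivFin V).toEmbedding.trans
    (Fin.valEmbedding)⟩
  obtain ⟨w₀, hw₀, -⟩ := SR.exists_fresh ∅ (univ.map φ₀)
  have hinj : Function.Injective (fun s : Finset (Fin m) => s.image (fo φ₀ w₀ ∘ e.symm)) :=
    image_injective ((fo_inj hw₀).comp e.symm.injective)
  refine ⟨k, m, H, hk, hm, ?_, ?_, D.Inv Y₀, ?_, ?_, ?_⟩
  · intro s hs
    have h1 : s.image (fo φ₀ w₀ ∘ e.symm) ∈ D.H Y₀ φ₀ w₀ := by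
      rw [← himg]
      exact mem_image_of_mem _ hs
    have h2 := D.H_card_edge hY hw₀ h1
    rwa [card_image_of_injective _ ((fo_inj hw₀).comp e.symm.injective)] at h2
  · intro v
    have h1 : (H.filter (fun s => v ∈ s)).image (fun s => s.image (fo φ₀ w₀ ∘ e.symm)) =
        (D.H Y₀ φ₀ w₀).filter (fun s => fo φ₀ w₀ (e.symm v) ∈ s) := by
      rw [← himg]
      ext t
      simp only [mem_image, mem_filter]
      constructor
      · rintro ⟨s, ⟨hs, hv⟩, rfl⟩
        exact ⟨⟨s, hs, rfl⟩, mem_image.2 ⟨v, hv, rfl⟩⟩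
      · rintro ⟨⟨s, hs, rfl⟩, hv⟩
        refine ⟨s, ⟨hs, ?_⟩, rfl⟩
        obtain ⟨v', hv', h2⟩ := mem_image.1 hv
        have h3 := ((fo_inj hw₀).comp e.symm.injective) h2
        exact h3 ▸ hv'
    have h2 : (H.filter (fun s => v ∈ s)).card =
        ((D.H Y₀ φ₀ w₀).filter (fun s => fo φ₀ w₀ (e.symm v) ∈ s)).card := by
      rw [← h1, card_image_of_injective _ hinj]
    rw [h2]
    rcases ho : e.symm v with _ | u
    · have := D.deg_w hY hw₀
      exact this.ge
    · have h3 : φ₀ u ∈ univ.map φ₀ := mem_map_of_mem _ (mem_univ _)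
      have h4 := D.deg_H Y₀ φ₀ w₀ h3
      have h5 : fo φ₀ w₀ (some u) = φ₀ u := rfl
      rw [h5]
      omega
  · intro g hg
    exact Or.inl ⟨g, hg, rfl, rfl⟩
  · intro F S h
    exact D.inv_step hY hd h
  · intro F S h h'
    rw [hcopy] at h' ⊢
    exact D.inv_safe hY hd h h'

end Pool.Agent.Helper65K9.SR
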