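import Pool.Agent.Helper65K9.SR.Phase3

/-!
One step of the perpetual attack.
-/

set_option autoImplicit false

namespace Pool.Agent.Helper65K9.SR

open Finset

variable {d k n : ℕ} {V J : Type} [Fintype V] [DecidableEq V] [Fintype J] [DecidableEq J]

namespace Design

variable (D : Design d k n V J)

/-- A vertex lying in a single edge of `G` is not in the vertex set of a core inside `G`. -/
theorem notMem_of_deg {ψ : V ↪ ℕ} {G : Finset (Finset ℕ)} (hG : D.K ψ ⊆ G) {z : ℕ}
    (hz : (G.filter (fun e => z ∈ e)).card ≤ 2 * d) : z ∉ univ.map ψ := by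
  intro h
  have h1 := D.deg_K ψ h
  have h2 := card_le_card (filter_subset_filter (fun e => z ∈ e) hG)
  omega

theorem attack_step {Y₀ : Finset V} (hY : IsY D Y₀) (hd : 3 ≤ d) {F S : Finset (Finset ℕ)}
    (h : D.P3 Y₀ F S) : ∃ s : Finset ℕ, s.card = k ∧ s ∉ F ∧ s ∉ S ∧
      ∀ g : Finset ℕ, g.card = k → g ∉ F → g ∉ S → g ≠ s →
        D.P3 Y₀ (insert g F) (insert s S) ∨ D.P4 Y₀ (insert g F) (insert s S) := by
  obtain ⟨φ, hK, hFS, hA, hB⟩ := h
  obtain ⟨z, hz, hzF⟩ := exists_fresh (F ∪ S) (univ.map φ)
  have hza : ∀ y, D.lk φ z y ∉ F := fun y h =>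
    hzF _ (mem_union_left _ h) (D.w_mem_lk φ z y)
  have hzS : ∀ y, D.lk φ z y ∉ S := fun y h =>
    hzF _ (mem_union_right _ h) (D.w_mem_lk φ z y)
  refine ⟨D.lk φ z D.a, D.lk_card hz D.a_Y, hza _, hzS _, ?_⟩
  intro g hgk hgF hgS hgs
  have hdisj : Disjoint (insert g F) (insert (D.lk φ z D.a) S) := by
    rw [disjoint_insert_left, disjoint_insert_right]
    refine ⟨?_, hza _, hFS⟩
    rw [mem_insert, not_or]
    exact ⟨hgs, hgS⟩
  by_cases hg : g = D.lk φ z D.b
  · left
    subst hg
    have hdeg : ((insert (D.lk φ z D.b) F).filter (fun e => z ∈ e)).card ≤ 1 := by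
      rw [card_le_one]
      intro e he e' he'
      rw [mem_filter, mem_insert] at he he'
      have h1 : ∀ e ∈ F, z ∉ e := fun e he => hzF e (mem_union_left _ he)
      rcases he with ⟨rfl | he, he1⟩
      · rcases he' with ⟨rfl | he', he1'⟩
        · rfl
        · exact absurd he1' (h1 _ he')
      · exact absurd he1 (h1 _ he)
    have hsub : ∀ ψ : V ↪ ℕ, D.K ψ ⊆ insert (D.lk φ z D.b) F → z ∉ univ.map ψ ∧ D.K ψ ⊆ F := by
      intro ψ hψ
      have h1 : z ∉ univ.map ψ := D.notMem_of_deg hψ (by omega)
      refine ⟨h1, fun e he => ?_⟩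
      rcases mem_insert.1 (hψ he) with h | h
      · exact absurd (h ▸ D.w_mem_lk φ z D.b) (D.w_notMem_K h1 he)
      · exact h
    refine ⟨φ, hK.trans (subset_insert _ _), hdisj, ?_, ?_⟩
    · intro ψ w hw hdj
      have hdj' : Disjoint (D.H Y₀ ψ w) S := disjoint_of_subset_right (subset_insert _ _) hdj
      have hold := hA ψ w hw hdj'
      by_cases hgH : D.lk φ z D.b ∈ D.H Y₀ ψ w
      · by_contra hlt
        push Not at hlt
        have h1 : (D.H Y₀ ψ w \ insert (D.lk φ z D.b) F).card ≤ d - 1 :=
          D.sdiff_card_le hY hw (by omega)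
        have h2 : ((D.H Y₀ ψ w ∩ insert (D.lk φ z D.b) F).filter (fun e => z ∈ e)).card ≤ 1 :=
          (card_le_card (filter_subset_filter _ inter_subset_right)).trans hdeg
        have hzw : z = w := by
          by_contra hne
          have h3 : z ∈ univ.map ψ := by
            rcases mem_insert.1 (D.H_sub hgH (D.w_mem_lk φ z D.b)) with h | h
            · exact absurd h hne
            · exact h
          have h4 := D.deg_in h1 h3
          omega
        subst hzw
        -- the core of the copy lies in `F`
        have h5 : D.H Y₀ ψ z ∩ insert (D.lk φ z D.b) F ⊆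
            insert (D.lk φ z D.b) (D.K ψ ∩ insert (D.lk φ z D.b) F) := by
          intro e he
          rw [mem_inter] at he
          by_cases hze : z ∈ e
          · rcases mem_insert.1 he.2 with h | h
            · rw [h]; exact mem_insert_self _ _
            · exact absurd hze (hzF e (mem_union_left _ h))
          · refine mem_insert_of_mem (mem_inter.2 ⟨?_, he.2⟩)
            by_contra hcon
            exact hze ((D.H_w_iff hw he.1).2 hcon)
        have h6 := (card_le_card h5).trans (card_insert_le _ _)
        have h7 : D.K ψ ⊆ insert (D.lk φ z D.b) F := by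
          have h8 : D.K ψ ∩ insert (D.lk φ z D.b) F = D.K ψ := by
            apply eq_of_subset_of_card_le inter_subset_left
            rw [D.K_card]; omega
          rw [← h8]; exact inter_subset_right
        obtain ⟨-, h9⟩ := hsub ψ h7
        have h10 : D.lk φ z D.b ∉ D.K ψ := fun h => D.w_notMem_K hw h (D.w_mem_lk φ z D.b)
        obtain ⟨y, hy, hye⟩ := (D.mem_H.1 hgH).resolve_left h10
        refine hB ψ y (hY.sub hy) h9 ?_
        rw [← D.lk_erase hw y, hye, D.lk_erase hz]
      · have h1 : D.H Y₀ ψ w ∩ insert (D.lk φ z D.b) F = D.H Y₀ ψ w ∩ F := by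
          ext e
          simp only [mem_inter, mem_insert]
          constructor
          · rintro ⟨h2, h3 | h3⟩
            · exact absurd (h3 ▸ h2) hgH
            · exact ⟨h2, h3⟩
          · rintro ⟨h2, h3⟩
            exact ⟨h2, Or.inr h3⟩
        rw [h1]; exact hold
    · intro ψ y hy hψ
      exact hB ψ y hy (hsub ψ hψ).2
  · right
    refine ⟨φ, z, {D.a}, hz, hK.trans (subset_insert _ _), hdisj, ?_, ?_, mem_singleton_self _,
      Or.inr ⟨card_singleton _, ?_⟩, ?_, ?_, ?_⟩
    · rw [singleton_subset_iff]; exact D.a_Y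
    · rw [card_singleton]; omega
    · rw [mem_insert, not_or]
      exact ⟨fun h => hg h.symm, hza _⟩
    · intro y hy
      rw [mem_insert, mem_singleton]
      constructor
      · rintro (h | h)
        · exact D.lk_inj hz hy h
        · exact absurd h (hzS y)
      · rintro h
        left; rw [h]
    · rw [card_singleton, card_le_one]
      intro c hc c' hc'
      rw [mem_filter, mem_insert] at hc hc'
      have h1 := hc.2.resolve_right (hza c)
      have h2 := hc'.2.resolve_right (hza c')
      exact D.lk_inj hz (D.C_Y hc.1) (h1.trans h2.symm)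
    · rw [card_singleton]
      exact D.atMost_insert hA (subset_insert _ _) g

end Design

end Pool.Agent.Helper65K9.SR
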