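import Pool.Agent.Helper65K9.SR.Defs

set_option autoImplicit false

namespace Pool.Agent.Helper65K9.SR

open Finset

variable {d k n : ℕ} {V J : Type} [Fintype V] [DecidableEq V] [Fintype J] [DecidableEq J]

/-- The set of link vertices of the target. -/
structure IsY (D : Design d k n V J) (Y₀ : Finset V) : Prop where
  sub : Y₀ ⊆ D.Y
  a_mem : D.a ∈ Y₀
  b_mem : D.b ∈ Y₀
  card : Y₀.card = d

namespace Design

variable (D : Design d k n V J)

/-- The copy of the target with frame `φ` and apex `w`. -/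
def H (Y₀ : Finset V) (φ : V ↪ ℕ) (w : ℕ) : Finset (Finset ℕ) :=
  D.K φ ∪ Y₀.image (D.lk φ w)

theorem f_card (j : J) : (D.f j).card = k := by
  unfold Design.f
  rw [card_erase_of_mem (D.q_mem j true), D.B_card]
  simp

include D in
theorem kpos : 2 ≤ k := by
  have := D.X_card; omega

theorem f_sub (j : J) : D.f j ⊆ D.B (D.cl j) := erase_subset _ _

theorem f_inj : Function.Injective D.f := by
  intro j j' h
  by_contra hne
  by_cases hc : D.cl j = D.cl j'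
  · have h1 : D.q j true ∉ D.f j := by unfold Design.f; simp
    rw [h] at h1
    unfold Design.f at h1
    have h2 : D.q j true ∈ D.B (D.cl j') := hc ▸ D.q_mem j true
    simp only [mem_erase, not_and] at h1
    have h3 : D.q j true = D.q j' true := by
      by_contra h4
      exact h1 h4 h2
    exact hne (D.q_inj _ _ _ _ h3).1
  · have h1 := D.B_inter _ _ hc
    have h2 : D.f j ⊆ D.B (D.cl j) ∩ D.B (D.cl j') := by
      apply subset_inter (D.f_sub j)
      rw [h]; exact D.f_sub j'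
    have h3 := card_le_card h2
    rw [D.f_card] at h3
    omega

theorem K_card (φ : V ↪ ℕ) : (D.K φ).card = Fintype.card J := by
  unfold Design.K
  rw [card_image_of_injective, card_univ]
  intro j j' h
  exact D.f_inj (map_injective φ h)

theorem mem_K {φ : V ↪ ℕ} {e : Finset ℕ} : e ∈ D.K φ ↔ ∃ j, (D.f j).map φ = e := by
  unfold Design.K
  simp

theorem K_sub {φ : V ↪ ℕ} {e : Finset ℕ} (he : e ∈ D.K φ) : e ⊆ univ.map φ := by
  obtain ⟨j, rfl⟩ := D.mem_K.1 he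
  exact map_subset_map.2 (subset_univ _)

theorem K_card_edge {φ : V ↪ ℕ} {e : Finset ℕ} (he : e ∈ D.K φ) : e.card = k := by
  obtain ⟨j, rfl⟩ := D.mem_K.1 he
  rw [card_map, D.f_card]

theorem Y_X {y : V} (hy : y ∈ D.Y) : y ∉ D.X := by
  unfold Design.Y at hy
  simp only [mem_insert] at hy
  rcases hy with rfl | rfl | h
  · exact D.a_X
  · exact D.b_X
  · exact D.C_X _ h

theorem Y_q {y : V} (hy : y ∈ D.Y) (j : J) (e : Bool) : D.q j e ≠ y := by
  unfold Design.Y at hy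
  simp only [mem_insert] at hy
  rcases hy with rfl | rfl | h
  · exact D.q_ne_a j e
  · exact D.q_ne_b j e
  · intro h1; exact D.q_C j e (h1 ▸ h)

/-- the link set -/
def ls (φ : V ↪ ℕ) (y : V) : Finset ℕ := (insert y D.X).map φ

theorem lk_eq (φ : V ↪ ℕ) (w : ℕ) (y : V) : D.lk φ w y = insert w (D.ls φ y) := rfl

theorem ls_sub (φ : V ↪ ℕ) (y : V) : D.ls φ y ⊆ univ.map φ := map_subset_map.2 (subset_univ _)

theorem ls_card (φ : V ↪ ℕ) {y : V} (hy : y ∈ D.Y) : (D.ls φ y).card + 1 = k := by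
  unfold Design.ls
  rw [card_map, card_insert_of_notMem (D.Y_X hy)]
  have := D.X_card; omega

theorem w_notMem {φ : V ↪ ℕ} {w : ℕ} (hw : w ∉ univ.map φ) (y : V) : w ∉ D.ls φ y :=
  fun h => hw (D.ls_sub φ y h)

theorem lk_card {φ : V ↪ ℕ} {w : ℕ} (hw : w ∉ univ.map φ) {y : V} (hy : y ∈ D.Y) :
    (D.lk φ w y).card = k := by
  rw [lk_eq, card_insert_of_notMem (D.w_notMem hw y), D.ls_card φ hy]

theorem lk_erase {φ : V ↪ ℕ} {w : ℕ} (hw : w ∉ univ.map φ) (y : V) :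
    (D.lk φ w y).erase w = D.ls φ y := by
  rw [lk_eq, erase_insert (D.w_notMem hw y)]

theorem w_mem_lk (φ : V ↪ ℕ) (w : ℕ) (y : V) : w ∈ D.lk φ w y := by
  rw [lk_eq]; exact mem_insert_self _ _

theorem ls_inj (φ : V ↪ ℕ) {y y' : V} (hy : y ∈ D.Y) (h : D.ls φ y = D.ls φ y') :
    y = y' := by
  unfold Design.ls at h
  have h1 := map_injective φ h
  have h2 : y ∈ insert y' D.X := h1 ▸ mem_insert_self _ _
  rcases mem_insert.1 h2 with h3 | h3
  · exact h3
  · exact absurd h3 (D.Y_X hy)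

theorem lk_inj {φ : V ↪ ℕ} {w : ℕ} (hw : w ∉ univ.map φ) {y y' : V} (hy : y ∈ D.Y)
    (h : D.lk φ w y = D.lk φ w y') : y = y' := by
  have h1 := D.lk_erase hw y
  rw [h, D.lk_erase hw y'] at h1
  exact D.ls_inj φ hy h1.symm

theorem w_notMem_K {φ : V ↪ ℕ} {w : ℕ} (hw : w ∉ univ.map φ) {e : Finset ℕ} (he : e ∈ D.K φ) :
    w ∉ e := fun h => hw (D.K_sub he h)

theorem a_Y : D.a ∈ D.Y := by unfold Design.Y; simp
theorem b_Y : D.b ∈ D.Y := by unfold Design.Y; simp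
theorem C_Y {c : V} (hc : c ∈ D.C) : c ∈ D.Y := by unfold Design.Y; simp [hc]

theorem mem_H {Y₀ : Finset V} {φ : V ↪ ℕ} {w : ℕ} {e : Finset ℕ} :
    e ∈ D.H Y₀ φ w ↔ e ∈ D.K φ ∨ ∃ y ∈ Y₀, D.lk φ w y = e := by
  unfold Design.H
  simp

theorem K_sub_H (Y₀ : Finset V) (φ : V ↪ ℕ) (w : ℕ) : D.K φ ⊆ D.H Y₀ φ w :=
  subset_union_left

theorem lk_mem_H {Y₀ : Finset V} (φ : V ↪ ℕ) (w : ℕ) {y : V} (hy : y ∈ Y₀) :
    D.lk φ w y ∈ D.H Y₀ φ w := D.mem_H.2 (Or.inr ⟨y, hy, rfl⟩)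

theorem H_w_iff {Y₀ : Finset V} {φ : V ↪ ℕ} {w : ℕ} (hw : w ∉ univ.map φ) {e : Finset ℕ}
    (he : e ∈ D.H Y₀ φ w) : w ∈ e ↔ e ∉ D.K φ := by
  rcases D.mem_H.1 he with h | ⟨y, hy, rfl⟩
  · exact ⟨fun h1 => absurd h1 (D.w_notMem_K hw h), fun h1 => absurd h h1⟩
  · exact ⟨fun _ h1 => D.w_notMem_K hw h1 (D.w_mem_lk φ w y), fun _ => D.w_mem_lk φ w y⟩

theorem H_card {Y₀ : Finset V} (hY : IsY D Y₀) {φ : V ↪ ℕ} {w : ℕ} (hw : w ∉ univ.map φ) :
    (D.H Y₀ φ w).card = Fintype.card J + d := by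
  unfold Design.H
  rw [card_union_of_disjoint, D.K_card, card_image_of_injOn, hY.card]
  · intro y hy y' hy' h
    exact D.lk_inj hw (hY.sub hy) h
  · rw [disjoint_left]
    intro e he he'
    obtain ⟨y, hy, rfl⟩ := mem_image.1 he'
    exact D.w_notMem_K hw he (D.w_mem_lk φ w y)

theorem H_card_edge {Y₀ : Finset V} (hY : IsY D Y₀) {φ : V ↪ ℕ} {w : ℕ}
    (hw : w ∉ univ.map φ) {e : Finset ℕ} (he : e ∈ D.H Y₀ φ w) : e.card = k := by
  rcases D.mem_H.1 he with h | ⟨y, hy, rfl⟩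
  · exact D.K_card_edge h
  · exact D.lk_card hw (hY.sub hy)

theorem H_sub {Y₀ : Finset V} {φ : V ↪ ℕ} {w : ℕ} {e : Finset ℕ}
    (he : e ∈ D.H Y₀ φ w) : e ⊆ insert w (univ.map φ) := by
  rcases D.mem_H.1 he with h | ⟨y, hy, rfl⟩
  · exact (D.K_sub h).trans (subset_insert _ _)
  · rw [lk_eq]; exact insert_subset_insert _ (D.ls_sub φ y)

/-- degree of `w` in a copy -/
theorem deg_w {Y₀ : Finset V} (hY : IsY D Y₀) {φ : V ↪ ℕ} {w : ℕ} (hw : w ∉ univ.map φ) :
    ((D.H Y₀ φ w).filter (fun e => w ∈ e)).card = d := by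
  have h : (D.H Y₀ φ w).filter (fun e => w ∈ e) = Y₀.image (D.lk φ w) := by
    ext e
    simp only [mem_filter, mem_image]
    constructor
    · rintro ⟨h1, h2⟩
      rcases D.mem_H.1 h1 with h | h
      · exact absurd h2 (D.w_notMem_K hw h)
      · exact h
    · rintro ⟨y, hy, rfl⟩
      exact ⟨D.lk_mem_H φ w hy, D.w_mem_lk φ w y⟩
  rw [h, card_image_of_injOn, hY.card]
  intro y hy y' hy' h
  exact D.lk_inj hw (hY.sub hy) h

/-- degree of a core vertex in the core -/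
theorem deg_K (φ : V ↪ ℕ) {x : ℕ} (hx : x ∈ univ.map φ) :
    2 * d + 1 ≤ ((D.K φ).filter (fun e => x ∈ e)).card := by
  obtain ⟨v, -, rfl⟩ := mem_map.1 hx
  obtain ⟨r, hr⟩ := D.cover v
  have h1 : ((univ.filter (fun j => D.cl j = r)).filter (fun j => D.q j true ≠ v)).image
      (fun j => (D.f j).map φ) ⊆ (D.K φ).filter (fun e => φ v ∈ e) := by
    intro e he
    obtain ⟨j, hj, rfl⟩ := mem_image.1 he
    simp only [mem_filter, mem_univ, true_and] at hj
    simp only [mem_filter]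
    refine ⟨D.mem_K.2 ⟨j, rfl⟩, mem_map_of_mem φ ?_⟩
    unfold Design.f
    rw [mem_erase, hj.1]
    exact ⟨fun h => hj.2 h.symm, hr⟩
  have h2 := card_le_card h1
  rw [card_image_of_injective] at h2
  swap
  · intro j j' h
    exact D.f_inj (map_injective φ h)
  have h3 : ((univ.filter (fun j => D.cl j = r)).filter (fun j => ¬ (D.q j true ≠ v))).card ≤ 1 := by
    rw [card_le_one]
    intro j hj j' hj'
    simp only [mem_filter, not_not] at hj hj'
    exact (D.q_inj _ _ _ _ (hj.2.trans hj'.2.symm)).1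
  have h4 := card_filter_add_card_filter_not (s := univ.filter (fun j => D.cl j = r))
    (fun j => D.q j true ≠ v)
  have h5 := D.cls_card r
  omega

theorem deg_H (Y₀ : Finset V) (φ : V ↪ ℕ) (w : ℕ) {x : ℕ} (hx : x ∈ univ.map φ) :
    2 * d + 1 ≤ ((D.H Y₀ φ w).filter (fun e => x ∈ e)).card :=
  (D.deg_K φ hx).trans (card_le_card (filter_subset_filter _ (D.K_sub_H Y₀ φ w)))

end Design

end Pool.Agent.Helper65K9.SR
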