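import Mathlib

/-!
Strong Ramsey games that are draws, with arbitrarily large minimum degree (MP_9571c3_co, S10231):
the design, the leaf statements.
-/

set_option autoImplicit false

namespace Pool.Agent.Helper65K9.SR

open Finset

/-- A copy of `H` inside the family `F` of finite subsets of `ℕ`. -/
def HasCopy {n : ℕ} (H : Finset (Finset (Fin n))) (F : Finset (Finset ℕ)) : Prop :=
  ∃ f : Fin n → ℕ, Function.Injective f ∧ ∀ e ∈ H, e.image f ∈ F

/-- [GA] An invariant for the second player excludes a winning strategy of the first player. -/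
def S_GA : Prop :=
  ∀ (k n : ℕ) (H : Finset (Finset (Fin n)))
    (P : Finset (Finset ℕ) → Finset (Finset ℕ) → Prop), 0 < k →
    (∀ g : Finset ℕ, g.card = k → P {g} ∅) →
    (∀ F S, P F S → ∃ s : Finset ℕ, s.card = k ∧ s ∉ F ∧ s ∉ S ∧
      ∀ g : Finset ℕ, g.card = k → g ∉ F → g ∉ S → g ≠ s → P (insert g F) (insert s S)) →
    (∀ F S, P F S → HasCopy H F → HasCopy H S) →
    ¬ ∃ s : List (Finset ℕ) → Finset ℕ, ∀ m : ℕ → Finset ℕ,
        (∀ i : ℕ, Even i → m i = s (List.ofFn (fun j : Fin i => m j))) →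
        (∀ i : ℕ, Odd i → (m i).card = k ∧ ∀ j < i, m j ≠ m i) →
        ∃ N : ℕ, Even N ∧
          (∀ i ≤ N, Even i → (m i).card = k ∧ ∀ j < i, m j ≠ m i) ∧
          (∃ f : Fin n → ℕ, Function.Injective f ∧
              ∀ e ∈ H, ∃ i ≤ N, Even i ∧ m i = e.image f) ∧
          ¬ (∃ f : Fin n → ℕ, Function.Injective f ∧
              ∀ e ∈ H, ∃ i < N, Odd i ∧ m i = e.image f)

/-- [ST] Strategy stealing: the second player has no winning strategy. -/
def S_ST : Prop :=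
  ∀ (k n : ℕ) (H : Finset (Finset (Fin n))), 0 < k →
    ¬ ∃ t : List (Finset ℕ) → Finset ℕ, ∀ m : ℕ → Finset ℕ,
        (∀ i : ℕ, Odd i → m i = t (List.ofFn (fun j : Fin i => m j))) →
        (∀ i : ℕ, Even i → (m i).card = k ∧ ∀ j < i, m j ≠ m i) →
        ∃ N : ℕ, Odd N ∧
          (∀ i ≤ N, Odd i → (m i).card = k ∧ ∀ j < i, m j ≠ m i) ∧
          (∃ f : Fin n → ℕ, Function.Injective f ∧
              ∀ e ∈ H, ∃ i ≤ N, Odd i ∧ m i = e.image f) ∧
          ¬ (∃ f : Fin n → ℕ, Function.Injective f ∧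
              ∀ e ∈ H, ∃ i < N, Even i ∧ m i = e.image f)

/-- The combinatorial design behind the target hypergraph.  `J` = core edges, `Fin n` = classes of
core edges; the core edge `j` is `B (cl j)` without `q j true`; `{q j false, q j true}` is the
flippable pair owned by `j`; the link edges are `w` together with `X` and one element `y`. -/
structure Design (d k n : ℕ) (V J : Type) [Fintype V] [DecidableEq V] [Fintype J]
    [DecidableEq J] where
  cl : J → Fin n
  B : Fin n → Finset V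
  q : J → Bool → V
  X : Finset V
  C : Finset V
  a : V
  b : V
  npos : 0 < n
  B_card : ∀ r, (B r).card = k + 1
  B_inter : ∀ r r', r ≠ r' → (B r ∩ B r').card + 2 ≤ k
  q_mem : ∀ j e, q j e ∈ B (cl j)
  q_inj : ∀ j e j' e', q j e = q j' e' → j = j' ∧ e = e'
  q_pair : ∀ j r, q j false ∈ B r ↔ q j true ∈ B r
  ab_pair : ∀ r, a ∈ B r ↔ b ∈ B r
  C_B : ∀ c ∈ C, ∀ r, c ∈ B r
  cover : ∀ v, ∃ r, v ∈ B r
  pat_q : ∀ j e v, (∀ r, v ∈ B r ↔ q j e ∈ B r) → v = q j false ∨ v = q j true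
  pat_a : ∀ v, (∀ r, v ∈ B r ↔ a ∈ B r) → v = a ∨ v = b
  pat_X : ∀ v v', (∀ r, v ∈ B r ↔ v' ∈ B r) → v ∈ X → (∀ j, v ≠ q j false) →
    v' ∈ X ∧ ∀ j, v' ≠ q j false
  X_card : X.card + 2 = k
  qf_X : ∀ j, q j false ∈ X
  qt_X : ∀ j, q j true ∉ X
  a_X : a ∉ X
  b_X : b ∉ X
  C_X : ∀ c ∈ C, c ∉ X
  a_ne_b : a ≠ b
  a_C : a ∉ C
  b_C : b ∉ C
  q_ne_a : ∀ j e, q j e ≠ a
  q_ne_b : ∀ j e, q j e ≠ b
  q_C : ∀ j e, q j e ∉ C
  C_card : 2 * d ≤ C.card
  cls_card : ∀ r, 2 * d + 2 ≤ (univ.filter (fun j => cl j = r)).card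
  cls_gap : ∀ r r', r < r' →
    (univ.filter (fun j => cl j = r)).card + d < (univ.filter (fun j => cl j = r')).card
  V_card : Fintype.card V + 2 < 2 * k
  unowned : ∀ r, ∃ o ∈ B r, o ∈ X ∧ ∀ j e, o ≠ q j e

/-- [EX] The design exists for every `d`. -/
def S_EX : Prop :=
  ∀ d : ℕ, 3 ≤ d → ∃ (k n : ℕ) (V J : Type) (_ : Fintype V) (_ : DecidableEq V) (_ : Fintype J)
    (_ : DecidableEq J), Nonempty (Design d k n V J)

variable {d k n : ℕ} {V J : Type} [Fintype V] [DecidableEq V] [Fintype J] [DecidableEq J]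

namespace Design

/-- The core edge `j`. -/
def f (D : Design d k n V J) (j : J) : Finset V := (D.B (D.cl j)).erase (D.q j true)

/-- The copy of the core on the frame `φ`. -/
def K (D : Design d k n V J) (φ : V ↪ ℕ) : Finset (Finset ℕ) :=
  univ.image (fun j => (D.f j).map φ)

/-- The possible link vertices. -/
def Y (D : Design d k n V J) : Finset V := insert D.a (insert D.b D.C)

/-- The link edge at `w` with link vertex `y`. -/
def lk (D : Design d k n V J) (φ : V ↪ ℕ) (w : ℕ) (y : V) : Finset ℕ :=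
  insert w ((insert y D.X).map φ)

end Design

/-- [RG1] Two frames whose cores agree up to `d` edges have the same classes. -/
def S_RG1 : Prop :=
  ∀ (d k n : ℕ) (V J : Type) [Fintype V] [DecidableEq V] [Fintype J] [DecidableEq J]
    (D : Design d k n V J) (φ ψ : V ↪ ℕ),
    (univ.filter (fun j => (D.f j).map φ ∉ D.K ψ)).card ≤ d →
    (univ : Finset V).map φ = univ.map ψ ∧ ∀ r v, φ v ∈ (D.B r).map ψ ↔ v ∈ D.B r

/-- [RG2] If moreover a link set is shared, the cores are equal. -/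
def S_RG2 : Prop :=
  ∀ (d k n : ℕ) (V J : Type) [Fintype V] [DecidableEq V] [Fintype J] [DecidableEq J]
    (D : Design d k n V J) (φ ψ : V ↪ ℕ) (y y' : V),
    (univ.filter (fun j => (D.f j).map φ ∉ D.K ψ)).card ≤ d →
    y ∈ D.Y → y' ∈ D.Y → (insert y D.X).map φ = (insert y' D.X).map ψ → D.K φ = D.K ψ

/-- [RG3] The core determines `X` and `{a, b}`. -/
def S_RG3 : Prop :=
  ∀ (d k n : ℕ) (V J : Type) [Fintype V] [DecidableEq V] [Fintype J] [DecidableEq J]
    (D : Design d k n V J) (φ ψ : V ↪ ℕ), D.K φ = D.K ψ →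
    D.X.map φ = D.X.map ψ ∧
      ((φ D.a = ψ D.a ∧ φ D.b = ψ D.b) ∨ (φ D.a = ψ D.b ∧ φ D.b = ψ D.a))

end Pool.Agent.Helper65K9.SR
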