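import Pool.Agent.Helper65K9.SR.Phase2

/-!
Phase 2: the killing moves.
-/

set_option autoImplicit false

namespace Pool.Agent.Helper65K9.SR

open Finset

variable {d k n : ℕ} {V J : Type} [Fintype V] [DecidableEq V] [Fintype J] [DecidableEq J]

namespace Design

variable (D : Design d k n V J)

/-- no dangerous copy or a dangerous copy -/
theorem atMost_or (Y₀ : Finset V) (F S : Finset (Finset ℕ)) (m : ℕ) :
    D.AtMost Y₀ F S m ∨ ∃ (ψ : V ↪ ℕ) (w : ℕ), w ∉ univ.map ψ ∧ Disjoint (D.H Y₀ ψ w) S ∧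
      m + 1 ≤ (D.H Y₀ ψ w ∩ F).card := by
  by_cases h : D.AtMost Y₀ F S m
  · exact Or.inl h
  · right
    unfold AtMost at h
    push Not at h
    obtain ⟨ψ, w, h1, h2, h3⟩ := h
    exact ⟨ψ, w, h1, h2, h3⟩

theorem P2_step (hNB : S_NB) {Y₀ : Finset V} (hY : IsY D Y₀) (hd : 3 ≤ d)
    {F S : Finset (Finset ℕ)} (h : D.P2 F S) :
    D.P3 Y₀ F S ∨ ∃ s : Finset ℕ, s.card = k ∧ s ∉ F ∧ s ∉ S ∧
      ∀ g : Finset ℕ, g.card = k → g ∉ F → g ∉ S → g ≠ s →
        D.P2a Y₀ (insert g F) (insert s S) ∨ D.P2b Y₀ (insert g F) (insert s S) := by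
  obtain ⟨φ, j₀, g₁, g₂, hmin, hg₁, hg₂, hne, hg₁d, hnb, rfl, hF, hFS⟩ := h
  rcases D.atMost_or Y₀ F (D.K φ) (Fintype.card J) with hA | ⟨ψ, w, hw, hdj, hc⟩
  · left
    refine ⟨φ, Subset.rfl, hFS, hA, ?_⟩
    intro ψ y hy hψ hls
    have h1 := D.g1_small hg₁d hls
    have h2 : g₁ ∉ D.K ψ := by
      intro h
      have h3 : g₁ ∩ univ.map ψ = g₁ := inter_eq_left.2 (D.K_sub h)
      rw [h3, D.K_card_edge h] at h1
      omega
    have h3 : g₂ ∉ D.K ψ := hNB d k n V J D j₀ g₂ φ ψ y hmin hnb hy hls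
    have h4 : D.K ψ ⊆ (F.erase g₁).erase g₂ := by
      intro e he
      rw [mem_erase, mem_erase]
      exact ⟨fun h => h3 (h ▸ he), fun h => h2 (h ▸ he), hψ he⟩
    have h5 := card_le_card h4
    rw [card_erase_of_mem (mem_erase.2 ⟨hne.symm, hg₂⟩), card_erase_of_mem hg₁, D.K_card] at h5
    have h6 : 0 < Fintype.card J := Fintype.card_pos_iff.2 ⟨j₀⟩
    omega
  · right
    have hFH : F ⊆ D.H Y₀ ψ w := by
      have h1 : D.H Y₀ ψ w ∩ F = F := eq_of_subset_of_card_le inter_subset_right (by omega)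
      rw [← h1]; exact inter_subset_left
    by_cases hKF : D.K ψ ⊆ F
    · -- the core is complete: one link
      have h1 : (F \ D.K ψ).card = 1 := by
        rw [card_sdiff_of_subset hKF, D.K_card]; omega
      obtain ⟨l, hl⟩ := card_eq_one.1 h1
      have hlF : l ∈ F \ D.K ψ := by rw [hl]; exact mem_singleton_self _
      rw [mem_sdiff] at hlF
      have hFeq : F = D.K ψ ∪ {l} := by
        rw [← hl, union_sdiff_of_subset hKF]
      obtain ⟨y, hy, hyl⟩ := (D.mem_H.1 (hFH hlF.1)).resolve_left hlF.2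
      -- the killing link
      obtain ⟨c, hcY₀, hcY, hcy, hcab⟩ : ∃ c ∈ Y₀, c ∈ D.Y ∧ c ≠ y ∧ (c = D.a ∨ c = D.b) := by
        by_cases hya : y = D.a
        · exact ⟨D.b, hY.b_mem, D.b_Y, fun h => D.a_ne_b (hya.symm.trans h.symm), Or.inr rfl⟩
        · exact ⟨D.a, hY.a_mem, D.a_Y, fun h => hya h.symm, Or.inl rfl⟩
      have hsH := D.lk_mem_H ψ w hcY₀
      have hsF : D.lk ψ w c ∉ F := by
        rw [hFeq, mem_union, mem_singleton, not_or]
        refine ⟨fun h => D.w_notMem_K hw h (D.w_mem_lk ψ w c), fun h => ?_⟩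
        rw [← hyl] at h
        exact hcy (D.lk_inj hw hcY h)
      have hsS : D.lk ψ w c ∉ D.K φ := disjoint_left.1 hdj hsH
      refine ⟨D.lk ψ w c, D.lk_card hw hcY, hsF, hsS, ?_⟩
      intro g hgk hgF hgS hgs
      left
      refine ⟨φ, ψ, g₁, g, {l}, fun _ => w, subset_insert _ _, ?_, hg₁d, hFeq ▸ hg₁,
        by rw [← hFeq], ?_, ?_⟩
      · rw [disjoint_insert_left, disjoint_insert_right]
        refine ⟨?_, hsF, hFS⟩
        rw [mem_insert, not_or]
        exact ⟨hgs, hgS⟩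
      · intro l' hl'
        rw [mem_singleton] at hl'
        subst hl'
        refine ⟨hw, ⟨ψ, y, hy, rfl, hyl.symm⟩, ?_⟩
        rcases hcab with rfl | rfl
        · exact Or.inl (mem_insert_self _ _)
        · exact Or.inr (mem_insert_self _ _)
      · intro l' hl' l'' hl'' _
        rw [mem_singleton] at hl' hl''
        rw [hl', hl'']
    · -- the core is incomplete
      obtain ⟨s, hs, hsF⟩ := not_subset.1 hKF
      have hsS : s ∉ D.K φ := disjoint_left.1 hdj (D.K_sub_H Y₀ ψ w hs)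
      refine ⟨s, D.K_card_edge hs, hsF, hsS, ?_⟩
      intro g hgk hgF hgS hgs
      right
      refine ⟨φ, ψ, w, g₁, g, F, subset_insert _ _, ?_, hg₁d, hg₁, rfl, hF, hFH, hw, hKF, s,
        mem_insert_self _ _, hs⟩
      rw [disjoint_insert_left, disjoint_insert_right]
      refine ⟨?_, hsF, hFS⟩
      rw [mem_insert, not_or]
      exact ⟨hgs, hgS⟩

theorem P2a_step (hR2 : S_RG2) (hR3 : S_RG3) {Y₀ : Finset V} (hY : IsY D Y₀) (hd : 3 ≤ d)
    {F S : Finset (Finset ℕ)} (h : D.P2a Y₀ F S) :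
    D.P3 Y₀ F S ∨ ∃ s : Finset ℕ, s.card = k ∧ s ∉ F ∧ s ∉ S ∧
      ∀ g : Finset ℕ, g.card = k → g ∉ F → g ∉ S → g ≠ s →
        D.P2a Y₀ (insert g F) (insert s S) := by
  obtain ⟨φ, φ₁, g₁, g, DL, wl, hK, hFS, hg₁d, hg₁, rfl, h1, h2⟩ := h
  have h1' : ∀ l ∈ DL, wl l ∉ univ.map φ₁ ∧ ∃ (ψ : V ↪ ℕ) (y : V), y ∈ Y₀ ∧
      D.K ψ = D.K φ₁ ∧ l = D.lk ψ (wl l) y := fun l hl => ⟨(h1 l hl).1, (h1 l hl).2.1⟩
  have hwl : ∀ l ∈ DL, wl l ∈ l := by
    intro l hl
    obtain ⟨ψ', y, -, -, h5⟩ := (h1 l hl).2.1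
    have := D.w_mem_lk ψ' (wl l) y
    rw [← h5] at this
    exact this
  rcases D.atMost_or Y₀ (insert g (D.K φ₁ ∪ DL)) S (Fintype.card J) with
    hA | ⟨ψ, w, hw, hdj, hc⟩
  · left
    refine ⟨φ, hK, hFS, hA, ?_⟩
    intro ψ y hy hψ hls
    have h3 := D.g1_small hg₁d hls
    -- no dead link in the core
    have h4 : D.K ψ ⊆ insert g (D.K φ₁) := by
      intro e he
      rcases mem_insert.1 (hψ he) with h | h
      · rw [h]; exact mem_insert_self _ _
      · rcases mem_union.1 h with h | h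
        · exact mem_insert_of_mem h
        · exfalso
          have h5 := D.wl_deg (g := g) h1' h2 h
          have h6 := D.notMem_of_deg hψ (z := wl e) (by omega)
          exact h6 (D.K_sub he (hwl e h))
    have h5 : univ.map ψ = univ.map φ₁ := by
      apply eq_of_subset_of_card_le
      · intro x hx
        have h6 := D.deg_K ψ hx
        have h7 : (D.K ψ).filter (fun e => x ∈ e) ⊆
            insert g ((D.K φ₁).filter (fun e => x ∈ e)) := by
          intro e he
          simp only [mem_filter, mem_insert] at he ⊢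
          rcases mem_insert.1 (h4 he.1) with h | h
          · exact Or.inl h
          · exact Or.inr ⟨h, he.2⟩
        have h8 := (card_le_card h7).trans (card_insert_le _ _)
        have h9 : 0 < ((D.K φ₁).filter (fun e => x ∈ e)).card := by omega
        obtain ⟨e, he⟩ := card_pos.1 h9
        rw [mem_filter] at he
        exact D.K_sub he.1 he.2
      · rw [card_map, card_map]
    rw [h5] at h3
    rcases mem_union.1 hg₁ with h | h
    · rw [inter_eq_left.2 (D.K_sub h), D.K_card_edge h] at h3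
      omega
    · obtain ⟨-, ψ', y', hy', hψ', hlk⟩ := h1' g₁ h
      have h6 : D.ls ψ' y' ⊆ g₁ ∩ univ.map φ₁ := by
        apply subset_inter
        · rw [hlk, lk_eq]
          exact subset_insert _ _
        · rw [← D.K_univ hψ']
          exact D.ls_sub ψ' y'
      have h7 := card_le_card h6
      have h8 := D.ls_card ψ' (hY.sub hy')
      omega
  · right
    obtain ⟨hKψ, hgH, hgK, hdead, -⟩ := D.P2a_struct hR2 hR3 hY hd h1 h2 hw hdj hc
    obtain ⟨y, hy, hyl⟩ := (D.mem_H.1 hgH).resolve_left hgK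
    have hw₁ : w ∉ univ.map φ₁ := by rw [← D.K_univ hKψ]; exact hw
    have hwg : w ∈ g := (D.H_w_iff hw hgH).2 hgK
    have hgDL : g ∉ DL := by
      intro h
      obtain ⟨h3, ψ', y', -, hψ', hlk⟩ := h1' g h
      have h4 : w ∈ insert (wl g) (univ.map φ₁) := by
        rw [← D.K_univ hψ']
        rw [hlk, lk_eq] at hwg
        rcases mem_insert.1 hwg with h | h
        · exact mem_insert.2 (Or.inl h)
        · exact mem_insert_of_mem (D.ls_sub ψ' y' h)
      rcases mem_insert.1 h4 with h5 | h5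
      · exact hdead g h h5.symm
      · exact hw₁ h5
    obtain ⟨c, hcY₀, hcY, hcy, hcab⟩ : ∃ c ∈ Y₀, c ∈ D.Y ∧ c ≠ y ∧ (c = D.a ∨ c = D.b) := by
      by_cases hya : y = D.a
      · exact ⟨D.b, hY.b_mem, D.b_Y, fun h => D.a_ne_b (hya.symm.trans h.symm), Or.inr rfl⟩
      · exact ⟨D.a, hY.a_mem, D.a_Y, fun h => hya h.symm, Or.inl rfl⟩
    have hsH := D.lk_mem_H ψ w hcY₀
    have hsK : D.lk ψ w c ∉ D.K ψ := fun h => D.w_notMem_K hw h (D.w_mem_lk ψ w c)
    have hsF : D.lk ψ w c ∉ insert g (D.K φ₁ ∪ DL) := by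
      rw [mem_insert, mem_union, not_or, not_or]
      refine ⟨fun h => ?_, hKψ ▸ hsK, fun h => ?_⟩
      · rw [← hyl] at h
        exact hcy (D.lk_inj hw hcY h)
      · obtain ⟨h3, ψ', y', -, hψ', hlk⟩ := h1' _ h
        have h4 : w ∈ insert (wl (D.lk ψ w c)) (univ.map φ₁) := by
          rw [← D.K_univ hψ']
          have h5 := D.w_mem_lk ψ w c
          rw [hlk, lk_eq] at h5
          rcases mem_insert.1 h5 with h6 | h6
          · exact mem_insert.2 (Or.inl h6)
          · exact mem_insert_of_mem (D.ls_sub ψ' y' h6)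
        rcases mem_insert.1 h4 with h5 | h5
        · exact hdead _ h h5.symm
        · exact hw₁ h5
    have hsS : D.lk ψ w c ∉ S := disjoint_left.1 hdj hsH
    refine ⟨D.lk ψ w c, D.lk_card hw hcY, hsF, hsS, ?_⟩
    intro g' hgk hgF hgS hgs
    refine ⟨φ, φ₁, g₁, g', insert g DL, fun l => if l = g then w else wl l,
      hK.trans (subset_insert _ _), ?_, hg₁d, ?_, ?_, ?_, ?_⟩
    · rw [disjoint_insert_left, disjoint_insert_right]
      refine ⟨?_, hsF, hFS⟩
      rw [mem_insert, not_or]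
      exact ⟨hgs, hgS⟩
    · rw [mem_union, mem_insert]
      rcases mem_union.1 hg₁ with h | h
      · exact Or.inl h
      · exact Or.inr (Or.inr h)
    · rw [union_insert]
    · intro l hl
      by_cases hlg : l = g
      · simp only [if_pos hlg]
        refine ⟨hw₁, ⟨ψ, y, hy, hKψ, hlg.trans hyl.symm⟩, ?_⟩
        have h3 : D.lk ψ w c = D.lk φ₁ w D.a ∨ D.lk ψ w c = D.lk φ₁ w D.b := by
          simp only [lk_eq]
          rcases D.ls_ab hR3 hKψ with ⟨h4, h5⟩ | ⟨h4, h5⟩ <;> rcases hcab with rfl | rfl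
          · left; rw [h4]
          · right; rw [h5]
          · right; rw [h4]
          · left; rw [h5]
        rcases h3 with h3 | h3
        · left; rw [← h3]; exact mem_insert_self _ _
        · right; rw [← h3]; exact mem_insert_self _ _
      · simp only [if_neg hlg]
        have hl' : l ∈ DL := (mem_insert.1 hl).resolve_left hlg
        obtain ⟨h3, h4, h5⟩ := h1 l hl'
        refine ⟨h3, h4, ?_⟩
        rcases h5 with h5 | h5
        · exact Or.inl (mem_insert_of_mem h5)
        · exact Or.inr (mem_insert_of_mem h5)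
    · intro l hl l' hl' hll
      by_cases hlg : l = g <;> by_cases hlg' : l' = g
      · rw [hlg, hlg']
      · simp only [if_pos hlg, if_neg hlg'] at hll
        exact absurd hll.symm (hdead l' ((mem_insert.1 hl').resolve_left hlg'))
      · simp only [if_neg hlg, if_pos hlg'] at hll
        exact absurd hll (hdead l ((mem_insert.1 hl).resolve_left hlg))
      · simp only [if_neg hlg, if_neg hlg'] at hll
        exact h2 l ((mem_insert.1 hl).resolve_left hlg) l' ((mem_insert.1 hl').resolve_left hlg')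
          hll

end Design

end Pool.Agent.Helper65K9.SR
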