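import Pool.Agent.Helper65K9.SR.Copies

set_option autoImplicit false

namespace Pool.Agent.Helper65K9.SR

open Finset

variable {d k n : ℕ} {V J : Type} [Fintype V] [DecidableEq V] [Fintype J] [DecidableEq J]

namespace Design

variable (D : Design d k n V J)

/-- the number of edges of `H'` outside a family containing many of its edges -/
theorem sdiff_card_le {Y₀ : Finset V} (hY : IsY D Y₀) {φ : V ↪ ℕ} {w : ℕ}
    (hw : w ∉ univ.map φ) {F : Finset (Finset ℕ)} {m : ℕ}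
    (h : Fintype.card J + d ≤ (D.H Y₀ φ w ∩ F).card + m) :
    (D.H Y₀ φ w \ F).card ≤ m := by
  have h1 := card_sdiff_add_card_inter (D.H Y₀ φ w) F
  rw [D.H_card hY hw] at h1
  omega

/-- counting: a core vertex of a copy which is close to `F` has large degree in `F` -/
theorem deg_in {Y₀ : Finset V} {φ : V ↪ ℕ} {w : ℕ}
    {F : Finset (Finset ℕ)} {m : ℕ} (h : (D.H Y₀ φ w \ F).card ≤ m) {x : ℕ}
    (hx : x ∈ univ.map φ) : 2 * d + 1 ≤ ((D.H Y₀ φ w ∩ F).filter (fun e => x ∈ e)).card + m := by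
  have h1 := D.deg_H Y₀ φ w hx
  have h2 : (D.H Y₀ φ w).filter (fun e => x ∈ e) ⊆
      (D.H Y₀ φ w ∩ F).filter (fun e => x ∈ e) ∪ (D.H Y₀ φ w \ F) := by
    intro e he
    simp only [mem_filter, mem_union, mem_inter, mem_sdiff] at he ⊢
    by_cases h3 : e ∈ F
    · exact Or.inl ⟨⟨he.1, h3⟩, he.2⟩
    · exact Or.inr ⟨he.1, h3⟩
  have h3 := (card_le_card h2).trans (card_union_le _ _)
  omega

theorem w_eq {Y₀ : Finset V} (hY : IsY D Y₀) {φ ψ : V ↪ ℕ} {w w' : ℕ}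
    (hw : w ∉ univ.map φ) (hw' : w' ∉ univ.map ψ)
    (hcard : Fintype.card J ≤ (D.H Y₀ φ w ∩ D.H Y₀ ψ w').card)
    {e : Finset ℕ} (he : e ∈ D.H Y₀ φ w) (hwe : w' ∈ e) : w = w' := by
  by_contra hne
  have h1 : w' ∈ univ.map φ := by
    rcases mem_insert.1 (D.H_sub he hwe) with h | h
    · exact absurd h.symm hne
    · exact h
  have h2 := D.sdiff_card_le hY hw (F := D.H Y₀ ψ w') (m := d) (by omega)
  have h3 := D.deg_in h2 h1
  have h4 : ((D.H Y₀ φ w ∩ D.H Y₀ ψ w').filter (fun e => w' ∈ e)).card ≤ d := by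
    exact (card_le_card (filter_subset_filter _ inter_subset_right)).trans (D.deg_w hY hw').le
  omega

theorem bad_le {Y₀ : Finset V} (hY : IsY D Y₀) {φ ψ : V ↪ ℕ} {w : ℕ}
    (hw : w ∉ univ.map φ) (hw' : w ∉ univ.map ψ)
    (hcard : Fintype.card J ≤ (D.H Y₀ φ w ∩ D.H Y₀ ψ w).card) :
    (univ.filter (fun j => (D.f j).map φ ∉ D.K ψ)).card ≤ d := by
  have h2 := D.sdiff_card_le hY hw (F := D.H Y₀ ψ w) (m := d) (by omega)
  refine le_trans ?_ h2
  rw [← card_image_of_injective (univ.filter (fun j => (D.f j).map φ ∉ D.K ψ))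
    (f := fun j => (D.f j).map φ) (fun j j' h => D.f_inj (map_injective φ h))]
  apply card_le_card
  intro e he
  obtain ⟨j, hj, rfl⟩ := mem_image.1 he
  simp only [mem_filter, mem_univ, true_and] at hj
  have h3 : (D.f j).map φ ∈ D.K φ := D.mem_K.2 ⟨j, rfl⟩
  rw [mem_sdiff]
  refine ⟨D.K_sub_H Y₀ φ w h3, fun h4 => ?_⟩
  have h5 := (D.H_w_iff hw' h4).2 hj
  exact D.w_notMem_K hw h3 h5

/-- **Lemma R.** Two copies sharing at least `N` edges, among them a link of the second one, have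
the same apex and the same core. -/
theorem lemR (hR2 : S_RG2) {Y₀ : Finset V} (hY : IsY D Y₀) {φ ψ : V ↪ ℕ} {w w' : ℕ}
    (hw : w ∉ univ.map φ) (hw' : w' ∉ univ.map ψ)
    (hcard : Fintype.card J ≤ (D.H Y₀ φ w ∩ D.H Y₀ ψ w').card)
    {e : Finset ℕ} (he : e ∈ D.H Y₀ φ w) (he' : e ∈ D.H Y₀ ψ w') (hK : e ∉ D.K ψ) :
    w = w' ∧ D.K φ = D.K ψ := by
  have h1 : w' ∈ e := (D.H_w_iff hw' he').2 hK
  have h2 := D.w_eq hY hw hw' hcard he h1
  subst h2
  refine ⟨rfl, ?_⟩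
  have h3 := D.bad_le hY hw hw' hcard
  have h4 : e ∉ D.K φ := (D.H_w_iff hw he).1 h1
  obtain ⟨y, hy, hye⟩ := (D.mem_H.1 he).resolve_left h4
  obtain ⟨y', hy', hye'⟩ := (D.mem_H.1 he').resolve_left hK
  refine hR2 d k n V J D φ ψ y y' h3 (hY.sub hy) (hY.sub hy') ?_
  have h5 := D.lk_erase hw y
  have h6 := D.lk_erase hw' y'
  rw [hye] at h5
  rw [hye'] at h6
  exact h5.symm.trans h6

/-- The two special links of a frame depend on the core only. -/
theorem ls_ab (hR3 : S_RG3) {φ ψ : V ↪ ℕ} (h : D.K φ = D.K ψ) :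
    (D.ls φ D.a = D.ls ψ D.a ∧ D.ls φ D.b = D.ls ψ D.b) ∨
      (D.ls φ D.a = D.ls ψ D.b ∧ D.ls φ D.b = D.ls ψ D.a) := by
  obtain ⟨h1, h2⟩ := hR3 d k n V J D φ ψ h
  have h3 : ∀ (φ : V ↪ ℕ) (y : V), D.ls φ y = insert (φ y) (D.X.map φ) := by
    intro φ y
    unfold Design.ls
    rw [map_insert]
  rcases h2 with ⟨h2, h2'⟩ | ⟨h2, h2'⟩
  · left
    rw [h3, h3, h3, h3, h1, h2, h2']
    exact ⟨rfl, rfl⟩
  · right
    rw [h3, h3, h3, h3, h1, h2, h2']
    exact ⟨rfl, rfl⟩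

/-- If two frames have the same core, every copy with apex `w` on the first contains both special
links of the second. -/
theorem lk_mem (hR3 : S_RG3) {Y₀ : Finset V} (hY : IsY D Y₀) {φ ψ : V ↪ ℕ}
    (h : D.K φ = D.K ψ) (w : ℕ) :
    D.lk ψ w D.a ∈ D.H Y₀ φ w ∧ D.lk ψ w D.b ∈ D.H Y₀ φ w := by
  have ha := D.lk_mem_H φ w hY.a_mem
  have hb := D.lk_mem_H φ w hY.b_mem
  simp only [lk_eq] at ha hb ⊢
  rcases D.ls_ab hR3 h with ⟨h1, h2⟩ | ⟨h1, h2⟩
  · rw [← h1, ← h2]; exact ⟨ha, hb⟩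
  · rw [← h1, ← h2]; exact ⟨hb, ha⟩

/-- Equal cores have equal vertex sets. -/
theorem K_univ {φ ψ : V ↪ ℕ} (h : D.K φ = D.K ψ) : (univ : Finset V).map φ = univ.map ψ := by
  apply eq_of_subset_of_card_le
  · intro x hx
    have h1 := D.deg_K φ hx
    have h2 : 0 < ((D.K φ).filter (fun e => x ∈ e)).card := by omega
    obtain ⟨e, he⟩ := card_pos.1 h2
    rw [mem_filter, h] at he
    exact D.K_sub he.1 he.2
  · rw [card_map, card_map]

/-- A core contained in a copy is the core of the copy. -/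
theorem K_of_sub {Y₀ : Finset V} (hY : IsY D Y₀) {φ ψ : V ↪ ℕ} {w : ℕ}
    (hw : w ∉ univ.map φ) (h : D.K ψ ⊆ D.H Y₀ φ w) : D.K φ = D.K ψ := by
  have hwψ : w ∉ univ.map ψ := by
    intro h1
    have h2 := D.deg_K ψ h1
    have h3 := card_le_card (filter_subset_filter (fun e => w ∈ e) h)
    rw [D.deg_w hY hw] at h3
    omega
  symm
  apply eq_of_subset_of_card_le
  · intro e he
    by_contra h1
    exact D.w_notMem_K hwψ he ((D.H_w_iff hw (h he)).2 h1)
  · rw [D.K_card, D.K_card]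

end Design

end Pool.Agent.Helper65K9.SR
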