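import Pool.Agent.Helper65K9.SR.Attack

/-!
Phase 2: killing the threats of the first player.
-/

set_option autoImplicit false

namespace Pool.Agent.Helper65K9.SR

open Finset

variable {d k n : ℕ} {V J : Type} [Fintype V] [DecidableEq V] [Fintype J] [DecidableEq J]

namespace Design

variable (D : Design d k n V J)

/-- The first player owns a core `K φ₁`, finitely many dead links `DL`, and one more edge `g`. -/
def P2a (Y₀ : Finset V) (F S : Finset (Finset ℕ)) : Prop :=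
  ∃ (φ φ₁ : V ↪ ℕ) (g₁ g : Finset ℕ) (DL : Finset (Finset ℕ)) (wl : Finset ℕ → ℕ),
    D.K φ ⊆ S ∧ Disjoint F S ∧ Disjoint g₁ (univ.map φ) ∧ g₁ ∈ D.K φ₁ ∪ DL ∧
    F = insert g (D.K φ₁ ∪ DL) ∧
    (∀ l ∈ DL, wl l ∉ univ.map φ₁ ∧ (∃ (ψ : V ↪ ℕ) (y : V), y ∈ Y₀ ∧ D.K ψ = D.K φ₁ ∧
      l = D.lk ψ (wl l) y) ∧ (D.lk φ₁ (wl l) D.a ∈ S ∨ D.lk φ₁ (wl l) D.b ∈ S)) ∧
    (∀ l ∈ DL, ∀ l' ∈ DL, wl l = wl l' → l = l')

/-- The first player has `N + 1` edges of a copy whose core is killed, and one more edge. -/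
def P2b (Y₀ : Finset V) (F S : Finset (Finset ℕ)) : Prop :=
  ∃ (φ φ₁ : V ↪ ℕ) (w₁ : ℕ) (g₁ g : Finset ℕ) (F₁ : Finset (Finset ℕ)),
    D.K φ ⊆ S ∧ Disjoint F S ∧ Disjoint g₁ (univ.map φ) ∧ g₁ ∈ F₁ ∧
    F = insert g F₁ ∧ F₁.card = Fintype.card J + 1 ∧ F₁ ⊆ D.H Y₀ φ₁ w₁ ∧
    w₁ ∉ univ.map φ₁ ∧ ¬ D.K φ₁ ⊆ F₁ ∧ ∃ s ∈ S, s ∈ D.K φ₁

/-- A frame with a link set `ls φ b` meets `g₁` in few vertices. -/
theorem g1_small {φ ψ : V ↪ ℕ} {g₁ : Finset ℕ} (hg : Disjoint g₁ (univ.map φ)) {y : V}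
    (h : D.ls ψ y = D.ls φ D.b) : (g₁ ∩ univ.map ψ).card + 1 < k := by
  have h1 : D.ls φ D.b ⊆ univ.map ψ := h ▸ D.ls_sub ψ y
  have h2 : Disjoint (g₁ ∩ univ.map ψ) (D.ls φ D.b) :=
    disjoint_of_subset_left inter_subset_left (disjoint_of_subset_right (D.ls_sub φ D.b) hg)
  have h3 : (g₁ ∩ univ.map ψ) ∪ D.ls φ D.b ⊆ univ.map ψ :=
    union_subset inter_subset_right h1
  have h4 := card_le_card h3
  rw [card_union_of_disjoint h2, card_map, card_univ] at h4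
  have h5 := D.ls_card φ D.b_Y
  have h6 := D.V_card
  omega

theorem P2b_P3 (hR2 : S_RG2) {Y₀ : Finset V} (hY : IsY D Y₀) (hd : 3 ≤ d)
    {F S : Finset (Finset ℕ)} (h : D.P2b Y₀ F S) : D.P3 Y₀ F S := by
  obtain ⟨φ, φ₁, w₁, g₁, g, F₁, hK, hFS, hg₁, hg₁F, rfl, hF₁, hF₁H, hw₁, hnK, s, hs, hsK⟩ := h
  refine ⟨φ, hK, hFS, ?_, ?_⟩
  · intro ψ w hw hdj
    by_contra hlt
    push Not at hlt
    have h1 : D.H Y₀ ψ w ∩ insert g F₁ ⊆ insert g (D.H Y₀ ψ w ∩ F₁) := by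
      intro e he
      simp only [mem_inter, mem_insert] at he ⊢
      tauto
    have h2 := (card_le_card h1).trans (card_insert_le _ _)
    have h3 : (D.H Y₀ ψ w ∩ F₁).card ≤ (D.H Y₀ ψ w ∩ D.H Y₀ φ₁ w₁).card :=
      card_le_card (inter_subset_inter_left hF₁H)
    -- a link of the old copy in the intersection
    have h4 : ∃ e ∈ D.H Y₀ ψ w ∩ F₁, e ∉ D.K φ₁ := by
      by_contra hcon
      push Not at hcon
      have h5 : D.H Y₀ ψ w ∩ F₁ ⊆ D.K φ₁ := hcon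
      have h6 : D.H Y₀ ψ w ∩ F₁ = D.K φ₁ := by
        apply eq_of_subset_of_card_le h5
        rw [D.K_card]; omega
      exact hnK (h6 ▸ inter_subset_right)
    obtain ⟨e, he, heK⟩ := h4
    rw [mem_inter] at he
    obtain ⟨-, h7⟩ := D.lemR hR2 hY hw hw₁ (by omega) he.1 (hF₁H he.2) heK
    rw [← h7] at hsK
    exact disjoint_left.1 hdj (D.K_sub_H Y₀ ψ w hsK) hs
  · intro ψ y hy hψ hls
    have h1 := D.g1_small hg₁ hls
    have h2 : univ.map ψ ⊆ insert w₁ (univ.map φ₁) := by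
      intro x hx
      have h3 := D.deg_K ψ hx
      have h4 : (D.K ψ).filter (fun e => x ∈ e) ⊆
          insert g ((D.K ψ ∩ F₁).filter (fun e => x ∈ e)) := by
        intro e he
        simp only [mem_filter, mem_insert, mem_inter] at he ⊢
        rcases mem_insert.1 (hψ he.1) with h | h
        · exact Or.inl h
        · exact Or.inr ⟨⟨he.1, h⟩, he.2⟩
      have h5 := (card_le_card h4).trans (card_insert_le _ _)
      have h6 : 0 < ((D.K ψ ∩ F₁).filter (fun e => x ∈ e)).card := by omega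
      obtain ⟨e, he⟩ := card_pos.1 h6
      simp only [mem_filter, mem_inter] at he
      exact D.H_sub (hF₁H he.1.2) he.2
    have h3 : g₁ ⊆ insert w₁ (univ.map φ₁) := D.H_sub (hF₁H hg₁F)
    have h4 : g₁.card = k := D.H_card_edge hY hw₁ (hF₁H hg₁F)
    -- `g₁` has at most one vertex outside `univ.map ψ` ... count
    have h5 : g₁ ∪ D.ls φ D.b ⊆ insert w₁ (univ.map φ₁) := by
      apply union_subset h3
      rw [← hls]
      exact (D.ls_sub ψ y).trans h2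
    have h6 := card_le_card h5
    rw [card_union_of_disjoint (disjoint_of_subset_right (D.ls_sub φ D.b) hg₁)] at h6
    have h7 := (card_insert_le w₁ (univ.map φ₁))
    rw [card_map, card_univ] at h7
    have h8 := D.ls_card φ D.b_Y
    have h9 := D.V_card
    omega

/-- Vertices `wl l` of dead links lie in at most two edges of the first player. -/
theorem wl_deg {Y₀ : Finset V} {φ₁ : V ↪ ℕ} {g : Finset ℕ} {DL : Finset (Finset ℕ)}
    {wl : Finset ℕ → ℕ}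
    (h1 : ∀ l ∈ DL, wl l ∉ univ.map φ₁ ∧ ∃ (ψ : V ↪ ℕ) (y : V), y ∈ Y₀ ∧ D.K ψ = D.K φ₁ ∧
      l = D.lk ψ (wl l) y)
    (h2 : ∀ l ∈ DL, ∀ l' ∈ DL, wl l = wl l' → l = l') {l : Finset ℕ} (hl : l ∈ DL) :
    ((insert g (D.K φ₁ ∪ DL)).filter (fun e => wl l ∈ e)).card ≤ 2 := by
  have h3 : (insert g (D.K φ₁ ∪ DL)).filter (fun e => wl l ∈ e) ⊆ {g, l} := by
    intro e he
    rw [mem_filter, mem_insert, mem_union] at he
    rw [mem_insert, mem_singleton]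
    obtain ⟨he, hwe⟩ := he
    rcases he with he | he | he
    · exact Or.inl he
    · exact absurd (D.K_sub he hwe) (h1 l hl).1
    · right
      obtain ⟨-, ψ, y, hy, hψ, hlk⟩ := h1 e he
      have h4 : wl l ∈ insert (wl e) (univ.map φ₁) := by
        rw [← D.K_univ hψ]
        rw [hlk, lk_eq] at hwe
        rcases mem_insert.1 hwe with h | h
        · rw [h]; exact mem_insert_self _ _
        · exact mem_insert_of_mem (D.ls_sub ψ y h)
      rcases mem_insert.1 h4 with h | h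
      · exact (h2 l hl e he h).symm
      · exact absurd h (h1 l hl).1
  exact (card_le_card h3).trans card_le_two

/-- Structure of the dangerous copies in phase `P2a`. -/
theorem P2a_struct (hR2 : S_RG2) (hR3 : S_RG3) {Y₀ : Finset V} (hY : IsY D Y₀) (hd : 3 ≤ d)
    {φ₁ : V ↪ ℕ} {g : Finset ℕ} {DL S : Finset (Finset ℕ)} {wl : Finset ℕ → ℕ}
    (h1 : ∀ l ∈ DL, wl l ∉ univ.map φ₁ ∧ (∃ (ψ : V ↪ ℕ) (y : V), y ∈ Y₀ ∧ D.K ψ = D.K φ₁ ∧
      l = D.lk ψ (wl l) y) ∧ (D.lk φ₁ (wl l) D.a ∈ S ∨ D.lk φ₁ (wl l) D.b ∈ S))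
    (h2 : ∀ l ∈ DL, ∀ l' ∈ DL, wl l = wl l' → l = l')
    {ψ : V ↪ ℕ} {w : ℕ} (hw : w ∉ univ.map ψ) (hdj : Disjoint (D.H Y₀ ψ w) S)
    (hc : Fintype.card J + 1 ≤ (D.H Y₀ ψ w ∩ insert g (D.K φ₁ ∪ DL)).card) :
    D.K ψ = D.K φ₁ ∧ g ∈ D.H Y₀ ψ w ∧ g ∉ D.K ψ ∧ (∀ l ∈ DL, wl l ≠ w) ∧
      (D.H Y₀ ψ w ∩ insert g (D.K φ₁ ∪ DL)).card ≤ Fintype.card J + 1 := by
  have h1' : ∀ l ∈ DL, wl l ∉ univ.map φ₁ ∧ ∃ (ψ : V ↪ ℕ) (y : V), y ∈ Y₀ ∧
      D.K ψ = D.K φ₁ ∧ l = D.lk ψ (wl l) y := fun l hl => ⟨(h1 l hl).1, (h1 l hl).2.1⟩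
  -- if the core is `K φ₁`, then `w` is not a dead vertex
  have hdead : D.K ψ = D.K φ₁ → ∀ l ∈ DL, wl l ≠ w := by
    intro hK l hl hlw
    obtain ⟨-, -, h3⟩ := h1 l hl
    obtain ⟨h4, h5⟩ := D.lk_mem hR3 hY hK w
    rw [hlw] at h3
    rcases h3 with h3 | h3
    · exact disjoint_left.1 hdj h4 h3
    · exact disjoint_left.1 hdj h5 h3
  -- step 1
  have hs1 : (D.H Y₀ ψ w ∩ DL).card ≤ 1 := by
    have key : ∀ l ∈ D.H Y₀ ψ w ∩ DL, wl l = w := by
      intro l hl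
      rw [mem_inter] at hl
      by_contra hne
      have h3 : (D.H Y₀ ψ w \ insert g (D.K φ₁ ∪ DL)).card ≤ d - 1 :=
        D.sdiff_card_le hY hw (by omega)
      have h4 : wl l ∈ l := by
        obtain ⟨ψ', y, -, -, h5⟩ := (h1 l hl.2).2.1
        have := D.w_mem_lk ψ' (wl l) y
        rw [← h5] at this
        exact this
      have h5 : wl l ∈ univ.map ψ := by
        rcases mem_insert.1 (D.H_sub hl.1 h4) with h | h
        · exact absurd h hne
        · exact h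
      have h6 := D.deg_in h3 h5
      have h7 := D.wl_deg (g := g) h1' h2 hl.2
      have h8 := card_le_card (filter_subset_filter (fun e => wl l ∈ e)
        (inter_subset_right : D.H Y₀ ψ w ∩ insert g (D.K φ₁ ∪ DL) ⊆ _))
      omega
    rw [card_le_one]
    intro l hl l' hl'
    exact h2 l (mem_inter.1 hl).2 l' (mem_inter.1 hl').2 ((key l hl).trans (key l' hl').symm)
  have hsub : D.H Y₀ ψ w ∩ insert g (D.K φ₁ ∪ DL) ⊆
      insert g ((D.H Y₀ ψ w ∩ D.K φ₁) ∪ (D.H Y₀ ψ w ∩ DL)) := by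
    intro e he
    simp only [mem_inter, mem_insert, mem_union] at he ⊢
    tauto
  have hcard := ((card_le_card hsub).trans (card_insert_le _ _)).trans
    (Nat.add_le_add_right (card_union_le _ _) 1)
  -- step 2: no dead link in the copy
  have hs2 : D.H Y₀ ψ w ∩ DL = ∅ := by
    rw [eq_empty_iff_forall_notMem]
    intro l hl
    have hl' := mem_inter.1 hl
    obtain ⟨hx, ⟨ψ', y, hy, hψ', hlk⟩, hS⟩ := h1 l hl'.2
    have hx' : wl l ∉ univ.map ψ' := by rw [D.K_univ hψ']; exact hx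
    have hlK : l ∉ D.K ψ' := by
      intro h
      have h3 := D.w_mem_lk ψ' (wl l) y
      rw [← hlk] at h3
      exact D.w_notMem_K hx' h h3
    have hlH : l ∈ D.H Y₀ ψ' (wl l) := by
      have := D.lk_mem_H ψ' (wl l) hy
      rw [← hlk] at this
      exact this
    have h3 : insert l (D.H Y₀ ψ w ∩ D.K φ₁) ⊆ D.H Y₀ ψ w ∩ D.H Y₀ ψ' (wl l) := by
      rw [insert_subset_iff]
      refine ⟨mem_inter.2 ⟨hl'.1, hlH⟩, ?_⟩
      apply inter_subset_inter_left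
      rw [← hψ']
      exact D.K_sub_H _ _ _
    have h4 := card_le_card h3
    rw [card_insert_of_notMem (fun h => hlK (hψ' ▸ (mem_inter.1 h).2))] at h4
    obtain ⟨h5, h6⟩ := D.lemR hR2 hY hw hx' (by omega) hl'.1 hlH hlK
    exact hdead (h6.trans hψ') l hl'.2 h5.symm
  rw [hs2, union_empty] at hsub
  have hcard2 := (card_le_card hsub).trans (card_insert_le _ _)
  have h3 : D.H Y₀ ψ w ∩ D.K φ₁ = D.K φ₁ := by
    apply eq_of_subset_of_card_le inter_subset_right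
    rw [D.K_card]; omega
  have h4 : D.K ψ = D.K φ₁ := D.K_of_sub hY hw (by
    rw [← h3]; exact inter_subset_left)
  have h5 : g ∈ D.H Y₀ ψ w ∧ g ∉ D.K φ₁ := by
    by_contra hcon
    have h6 : D.H Y₀ ψ w ∩ insert g (D.K φ₁ ∪ DL) ⊆ D.K φ₁ := by
      intro e he
      rcases mem_insert.1 (hsub he) with h | h
      · subst h
        rw [not_and, not_not] at hcon
        exact hcon (mem_inter.1 he).1
      · exact (mem_inter.1 h).2
    have h7 := card_le_card h6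
    rw [D.K_card] at h7
    omega
  refine ⟨h4, h5.1, h4 ▸ h5.2, hdead h4, ?_⟩
  rw [h3, D.K_card] at hcard2
  exact hcard2

end Design

end Pool.Agent.Helper65K9.SR
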