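import Pool.Agent.Helper65K9.SR.Stm2

/-!
The perpetual attack and the race.
-/

set_option autoImplicit false

namespace Pool.Agent.Helper65K9.SR

open Finset

variable {d k n : ℕ} {V J : Type} [Fintype V] [DecidableEq V] [Fintype J] [DecidableEq J]

/-- a fresh natural number -/
theorem exists_fresh (F : Finset (Finset ℕ)) (A : Finset ℕ) :
    ∃ z, z ∉ A ∧ ∀ e ∈ F, z ∉ e := by
  obtain ⟨z, hz⟩ := Infinite.exists_notMem_finset (A ∪ F.sup id)
  rw [mem_union, not_or] at hz
  exact ⟨z, hz.1, fun e he h => hz.2 (mem_sup.2 ⟨e, he, h⟩)⟩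

/-- a fresh `k`-set -/
theorem exists_fresh_set {k : ℕ} (hk : 0 < k) (F : Finset (Finset ℕ)) (A : Finset ℕ) :
    ∃ s : Finset ℕ, s.card = k ∧ s ∉ F ∧ Disjoint A s := by
  obtain ⟨t, ht, hc⟩ := (Set.Infinite.exists_subset_card_eq
    (s := {x : ℕ | x ∉ A ∪ F.sup id}) (by
      have := (A ∪ F.sup id).finite_toSet.infinite_compl
      exact this) k)
  refine ⟨t, hc, ?_, ?_⟩
  · intro h
    obtain ⟨x, hx⟩ := card_pos.1 (hc ▸ hk : 0 < t.card)
    have h1 := ht hx
    simp only [mem_union, not_or, Set.mem_ofPred_eq] at h1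
    exact h1.2 (mem_sup.2 ⟨t, h, hx⟩)
  · rw [disjoint_right]
    intro x hx hA
    have h1 := ht hx
    simp only [mem_union, not_or, Set.mem_ofPred_eq] at h1
    exact h1.1 hA

namespace Design

variable (D : Design d k n V J)

/-- The second player owns a copy. -/
def Won (Y₀ : Finset V) (S : Finset (Finset ℕ)) : Prop :=
  ∃ (φ : V ↪ ℕ) (w : ℕ), w ∉ univ.map φ ∧ D.H Y₀ φ w ⊆ S

/-- Every copy not met by the second player has at most `m` edges of the first player. -/
def AtMost (Y₀ : Finset V) (F S : Finset (Finset ℕ)) (m : ℕ) : Prop :=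
  ∀ (φ : V ↪ ℕ) (w : ℕ), w ∉ univ.map φ → Disjoint (D.H Y₀ φ w) S →
    (D.H Y₀ φ w ∩ F).card ≤ m

/-- Perpetual attack. -/
def P3 (Y₀ : Finset V) (F S : Finset (Finset ℕ)) : Prop :=
  ∃ φ : V ↪ ℕ, D.K φ ⊆ S ∧ Disjoint F S ∧ D.AtMost Y₀ F S (Fintype.card J) ∧
    ∀ (ψ : V ↪ ℕ) (y : V), y ∈ D.Y → D.K ψ ⊆ F → D.ls ψ y ≠ D.ls φ D.b

/-- Race. -/
def P4 (Y₀ : Finset V) (F S : Finset (Finset ℕ)) : Prop :=
  ∃ (φ : V ↪ ℕ) (z : ℕ) (L : Finset V), z ∉ univ.map φ ∧ D.K φ ⊆ S ∧ Disjoint F S ∧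
    L ⊆ D.Y ∧ L.card + 1 ≤ d ∧ D.a ∈ L ∧ (D.b ∈ L ∨ (L.card = 1 ∧ D.lk φ z D.b ∉ F)) ∧
    (∀ y ∈ D.Y, D.lk φ z y ∈ S ↔ y ∈ L) ∧
    (D.C.filter (fun c => D.lk φ z c ∈ F)).card ≤ L.card ∧
    D.AtMost Y₀ F S (Fintype.card J + L.card)

theorem atMost_mono {Y₀ : Finset V} {F S S' : Finset (Finset ℕ)} {m : ℕ}
    (h : D.AtMost Y₀ F S m) (hS : S ⊆ S') : D.AtMost Y₀ F S' m :=
  fun φ w hw hd => h φ w hw (disjoint_of_subset_right hS hd)

theorem atMost_insert {Y₀ : Finset V} {F S S' : Finset (Finset ℕ)} {m : ℕ}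
    (h : D.AtMost Y₀ F S m) (hS : S ⊆ S') (g : Finset ℕ) :
    D.AtMost Y₀ (insert g F) S' (m + 1) := by
  intro φ w hw hd
  have h1 := h φ w hw (disjoint_of_subset_right hS hd)
  have h2 : D.H Y₀ φ w ∩ Insert.insert g F ⊆ Insert.insert g (D.H Y₀ φ w ∩ F) := by
    intro e he
    simp only [mem_inter, mem_insert] at he ⊢
    tauto
  have h3 := (card_le_card h2).trans (card_insert_le _ _)
  omega

/-- Links with an arbitrary set of `d` link vertices containing `a, b` give a copy. -/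
theorem sym_copy {Y₀ : Finset V} (hY : IsY D Y₀) (φ : V ↪ ℕ) {z : ℕ} (hz : z ∉ univ.map φ)
    {L : Finset V} (hL : L ⊆ D.Y) (hc : L.card = d) (ha : D.a ∈ L) (hb : D.b ∈ L) :
    ∃ ψ : V ↪ ℕ, z ∉ univ.map ψ ∧ D.H Y₀ ψ z ⊆ D.K φ ∪ L.image (D.lk φ z) := by
  classical
  -- a permutation of `V` mapping `Y₀` to `L`, moving only elements of `C`
  have key : ∃ σ : Equiv.Perm V, (∀ v, v ∉ D.C → σ v = v) ∧ (∀ y ∈ Y₀, σ y ∈ L) := by
    have hT : (Y₀ \ L).card = (L \ Y₀).card := by
      have h1 := card_sdiff_add_card_inter Y₀ L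
      have h2 := card_sdiff_add_card_inter L Y₀
      rw [inter_comm] at h2
      have := hY.card
      omega
    obtain ⟨e⟩ : Nonempty ((Y₀ \ L : Finset V) ≃ (L \ Y₀ : Finset V)) := by
      rw [← Fintype.card_eq, Fintype.card_coe, Fintype.card_coe]
      exact hT
    have hC1 : ∀ v ∈ Y₀ \ L, v ∈ D.C := by
      intro v hv
      rw [mem_sdiff] at hv
      have h1 := hY.sub hv.1
      unfold Design.Y at h1
      rw [mem_insert, mem_insert] at h1
      rcases h1 with rfl | rfl | h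
      · exact absurd ha hv.2
      · exact absurd hb hv.2
      · exact h
    have hC2 : ∀ v ∈ L \ Y₀, v ∈ D.C := by
      intro v hv
      rw [mem_sdiff] at hv
      have h1 := hL hv.1
      unfold Design.Y at h1
      rw [mem_insert, mem_insert] at h1
      rcases h1 with rfl | rfl | h
      · exact absurd hY.a_mem hv.2
      · exact absurd hY.b_mem hv.2
      · exact h
    -- define the involution
    let g : V → V := fun v =>
      if h : v ∈ Y₀ \ L then (e ⟨v, h⟩ : V) else
        if h : v ∈ L \ Y₀ then (e.symm ⟨v, h⟩ : V) else v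
    have hg1 : ∀ v (h : v ∈ Y₀ \ L), g v = (e ⟨v, h⟩ : V) := fun v h => dif_pos h
    have hg2 : ∀ v (h : v ∈ L \ Y₀), g v = (e.symm ⟨v, h⟩ : V) := by
      intro v h
      have h' : v ∉ Y₀ \ L := by
        rw [mem_sdiff] at h ⊢
        tauto
      simp only [g, dif_neg h', dif_pos h]
    have hg3 : ∀ v, v ∉ Y₀ \ L → v ∉ L \ Y₀ → g v = v := by
      intro v h h'
      simp only [g, dif_neg h, dif_neg h']
    have hinv : Function.Involutive g := by
      intro v
      by_cases h1 : v ∈ Y₀ \ L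
      · rw [hg1 v h1, hg2 _ (e ⟨v, h1⟩).2]
        simp
      · by_cases h2 : v ∈ L \ Y₀
        · rw [hg2 v h2, hg1 _ (e.symm ⟨v, h2⟩).2]
          simp
        · rw [hg3 v h1 h2, hg3 v h1 h2]
    refine ⟨hinv.toPerm g, ?_, ?_⟩
    · intro v hv
      exact hg3 v (fun h => hv (hC1 v h)) (fun h => hv (hC2 v h))
    · intro y hy
      by_cases h1 : y ∈ L
      · have h2 : y ∉ Y₀ \ L := by rw [mem_sdiff]; tauto
        have h3 : y ∉ L \ Y₀ := by rw [mem_sdiff]; tauto
        change g y ∈ L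
        rw [hg3 y h2 h3]; exact h1
      · have h2 : y ∈ Y₀ \ L := by rw [mem_sdiff]; tauto
        change g y ∈ L
        rw [hg1 y h2]
        exact (mem_sdiff.1 (e ⟨y, h2⟩).2).1
  obtain ⟨σ, hσ, hσY⟩ := key
  have hσC : ∀ v, v ∈ D.C → σ v ∈ D.C := by
    intro v hv
    by_contra h
    have h1 := hσ _ h
    have h2 := σ.injective h1
    exact h (by rw [h2]; exact hv)
  have hset : ∀ A : Finset V, D.C ⊆ A → A.map σ.toEmbedding = A := by
    intro A hA
    apply eq_of_subset_of_card_le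
    · intro x hx
      obtain ⟨v, hv, rfl⟩ := mem_map.1 hx
      by_cases hvC : v ∈ D.C
      · exact hA (hσC v hvC)
      · change σ v ∈ A
        rw [hσ v hvC]; exact hv
    · rw [card_map]
  have hX : D.X.map σ.toEmbedding = D.X := by
    apply eq_of_subset_of_card_le
    · intro x hx
      obtain ⟨v, hv, rfl⟩ := mem_map.1 hx
      have hvC : v ∉ D.C := fun h => D.C_X v h hv
      change σ v ∈ D.X
      rw [hσ v hvC]; exact hv
    · rw [card_map]
  refine ⟨σ.toEmbedding.trans φ, ?_, ?_⟩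
  · rw [← map_map]
    have : (univ : Finset V).map σ.toEmbedding = univ := hset univ (subset_univ _)
    rw [this]; exact hz
  · intro e he
    rw [mem_union]
    rcases D.mem_H.1 he with h | ⟨y, hy, rfl⟩
    · left
      obtain ⟨j, rfl⟩ := D.mem_K.1 h
      rw [← map_map, hset (D.f j) ?_]
      · exact D.mem_K.2 ⟨j, rfl⟩
      · intro c hc
        unfold Design.f
        rw [mem_erase]
        exact ⟨fun h => D.q_C j true (h ▸ hc), D.C_B c hc _⟩
    · right
      rw [mem_image]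
      refine ⟨σ y, hσY y hy, ?_⟩
      unfold Design.lk
      rw [← map_map, map_insert σ.toEmbedding, hX]
      rfl

/-- moves in the race -/
theorem race_step {Y₀ : Finset V} (hY : IsY D Y₀) {F S : Finset (Finset ℕ)}
    (h : D.P4 Y₀ F S) : ∃ s : Finset ℕ, s.card = k ∧ s ∉ F ∧ s ∉ S ∧
      ∀ g : Finset ℕ, g.card = k → g ∉ F → g ∉ S → g ≠ s →
        D.P4 Y₀ (insert g F) (insert s S) ∨ D.Won Y₀ (insert s S) := by
  obtain ⟨φ, z, L, hz, hK, hFS, hLY, hLd, haL, hb, hS, hC, hA⟩ := h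
  -- choose the next link vertex
  obtain ⟨y, hyY, hyL, hyF, hyb⟩ : ∃ y ∈ D.Y, y ∉ L ∧ D.lk φ z y ∉ F ∧ (D.b ∈ L ∨ y = D.b) := by
    by_cases hbL : D.b ∈ L
    · by_contra hcon
      push Not at hcon
      have h1 : D.C ⊆ (L.erase D.a).erase D.b ∪ D.C.filter (fun c => D.lk φ z c ∈ F) := by
        intro c hc
        rw [mem_union, mem_filter, mem_erase, mem_erase]
        by_cases hcL : c ∈ L
        · left
          exact ⟨fun h => D.b_C (h ▸ hc), fun h => D.a_C (h ▸ hc), hcL⟩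
        · right
          refine ⟨hc, ?_⟩
          by_contra h2
          exact (hcon c (D.C_Y hc) hcL h2).1 hbL
      have h2 := (card_le_card h1).trans (card_union_le _ _)
      have h3 := D.C_card
      have h4 : ((L.erase D.a).erase D.b).card + 2 = L.card := by
        rw [card_erase_of_mem (mem_erase.2 ⟨D.a_ne_b.symm, hbL⟩), card_erase_of_mem haL]
        have : 1 < L.card := by
          rw [one_lt_card]
          exact ⟨D.a, haL, D.b, hbL, D.a_ne_b⟩
        omega
      omega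
    · rcases hb with hb | ⟨hb1, hb2⟩
      · exact absurd hb hbL
      · exact ⟨D.b, D.b_Y, hbL, hb2, Or.inr rfl⟩
  have hsS : D.lk φ z y ∉ S := fun h => hyL ((hS y hyY).1 h)
  refine ⟨D.lk φ z y, D.lk_card hz hyY, hyF, hsS, ?_⟩
  intro g hgk hgF hgS hgs
  have hcard : (insert y L).card = L.card + 1 := card_insert_of_notMem hyL
  have hLY' : insert y L ⊆ D.Y := insert_subset hyY hLY
  have hb' : D.b ∈ insert y L := by
    rcases hyb with h | h
    · exact mem_insert_of_mem h
    · rw [h]; exact mem_insert_self _ _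
  by_cases hd : L.card + 1 = d
  · right
    obtain ⟨ψ, h1, h2⟩ := D.sym_copy hY φ hz hLY' (hcard.trans hd) (mem_insert_of_mem haL) hb'
    refine ⟨ψ, z, h1, h2.trans ?_⟩
    apply union_subset (hK.trans (subset_insert _ _))
    intro e he
    obtain ⟨y', hy', rfl⟩ := mem_image.1 he
    rw [mem_insert] at hy' ⊢
    rcases hy' with rfl | hy'
    · exact Or.inl rfl
    · exact Or.inr ((hS y' (hLY hy')).2 hy')
  · left
    refine ⟨φ, z, insert y L, hz, hK.trans (subset_insert _ _), ?_, hLY', ?_,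
      mem_insert_of_mem haL, Or.inl hb', ?_, ?_, ?_⟩
    · rw [disjoint_insert_left, disjoint_insert_right]
      refine ⟨?_, hyF, hFS⟩
      rw [mem_insert, not_or]
      exact ⟨hgs, hgS⟩
    · omega
    · intro y' hy'
      rw [mem_insert, mem_insert]
      constructor
      · rintro (h | h)
        · exact Or.inl (D.lk_inj hz hy' h)
        · exact Or.inr ((hS y' hy').1 h)
      · rintro (h | h)
        · left; rw [h]
        · exact Or.inr ((hS y' hy').2 h)
    · rw [hcard]
      have h1 : D.C.filter (fun c => D.lk φ z c ∈ insert g F) ⊆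
          D.C.filter (fun c => D.lk φ z c ∈ F) ∪ D.C.filter (fun c => D.lk φ z c = g) := by
        intro c hc
        simp only [mem_filter, mem_insert, mem_union] at hc ⊢
        tauto
      have h2 := (card_le_card h1).trans (card_union_le _ _)
      have h3 : (D.C.filter (fun c => D.lk φ z c = g)).card ≤ 1 := by
        rw [card_le_one]
        intro c hc c' hc'
        rw [mem_filter] at hc hc'
        exact D.lk_inj hz (D.C_Y hc.1) (hc.2.trans hc'.2.symm)
      omega
    · rw [hcard]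
      exact D.atMost_insert hA (subset_insert _ _) g

end Design

end Pool.Agent.Helper65K9.SR
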