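import Pool.Agent.Helper65K9.SR.LemR

/-!
Second set of leaf statements: the beginning of the game (frame chosen after the second move of the
first player, pairing stage).
-/

set_option autoImplicit false

namespace Pool.Agent.Helper65K9.SR

open Finset

variable {d k n : ℕ} {V J : Type} [Fintype V] [DecidableEq V] [Fintype J] [DecidableEq J]

namespace Design

/-- The two options for the core edge `j` on the frame `φ` (`fe φ j false = (f j).map φ`). -/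
def fe (D : Design d k n V J) (φ : V ↪ ℕ) (j : J) (e : Bool) : Finset ℕ :=
  ((D.B (D.cl j)).erase (D.q j (!e))).map φ

/-- `j₀` has the smallest overlap with link sets. -/
def IsMin (D : Design d k n V J) (j₀ : J) : Prop :=
  ∀ l, ∀ y ∈ D.Y, (D.f j₀ ∩ insert D.b D.X).card ≤ (D.f l ∩ insert y D.X).card

/-- The second move `g₂` of the first player meets the frame only inside the first edge `f j₀`,
and it misses an unowned vertex of `X`. -/
def NBc (D : Design d k n V J) (j₀ : J) (φ : V ↪ ℕ) (g₂ : Finset ℕ) : Prop :=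
  ∃ o, o ∈ D.f j₀ ∧ o ∈ D.X ∧ (∀ j e, o ≠ D.q j e) ∧ ∀ v, φ v ∈ g₂ → v ∈ D.f j₀ ∧ v ≠ o

/-- Pairing stage, second player to move: the core edges `j ∈ I` are built. -/
def P1 (D : Design d k n V J) (F S : Finset (Finset ℕ)) : Prop :=
  ∃ (φ : V ↪ ℕ) (I : Finset J) (j₀ : J) (g₁ g₂ : Finset ℕ), D.IsMin j₀ ∧ j₀ ∈ I ∧ I ≠ univ ∧
    g₁ ∈ F ∧ g₂ ∈ F ∧ g₁ ≠ g₂ ∧ Disjoint g₁ (univ.map φ) ∧ D.NBc j₀ φ g₂ ∧
    S = I.image (fun j => (D.f j).map φ) ∧ F.card = I.card + 1 ∧ Disjoint F S ∧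
    ∀ j ∉ I, ∀ j' ∉ I, ∀ e e', D.fe φ j e ∈ F → D.fe φ j' e' ∈ F → j = j' ∧ e = e'

/-- The core is built, `|F| = N + 1`, second player to move. -/
def P2 (D : Design d k n V J) (F S : Finset (Finset ℕ)) : Prop :=
  ∃ (φ : V ↪ ℕ) (j₀ : J) (g₁ g₂ : Finset ℕ), D.IsMin j₀ ∧
    g₁ ∈ F ∧ g₂ ∈ F ∧ g₁ ≠ g₂ ∧ Disjoint g₁ (univ.map φ) ∧ D.NBc j₀ φ g₂ ∧
    S = D.K φ ∧ F.card = Fintype.card J + 1 ∧ Disjoint F S

end Design

/-- [FR] The frame chosen after the second move of the first player. -/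
def S_FR : Prop :=
  ∀ (d k n : ℕ) (V J : Type) [Fintype V] [DecidableEq V] [Fintype J] [DecidableEq J]
    (D : Design d k n V J) (j₀ : J) (g₁ g₂ e₁ : Finset ℕ), e₁.card = k → g₂.card = k → g₂ ≠ e₁ →
    Disjoint g₁ e₁ → ∃ φ : V ↪ ℕ, (D.f j₀).map φ = e₁ ∧
      (∀ v, v ∉ D.f j₀ → φ v ∉ g₁ ∧ φ v ∉ g₂) ∧ Disjoint g₁ (univ.map φ) ∧ D.NBc j₀ φ g₂

/-- [MIN] -/
def S_MIN : Prop :=
  ∀ (d k n : ℕ) (V J : Type) [Fintype V] [DecidableEq V] [Fintype J] [DecidableEq J]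
    (D : Design d k n V J), ∃ j₀, D.IsMin j₀

/-- [NB] The second move of the first player is in no core having the link set `ls φ b`. -/
def S_NB : Prop :=
  ∀ (d k n : ℕ) (V J : Type) [Fintype V] [DecidableEq V] [Fintype J] [DecidableEq J]
    (D : Design d k n V J) (j₀ : J) (g₂ : Finset ℕ) (φ ψ : V ↪ ℕ) (y : V),
    D.IsMin j₀ → D.NBc j₀ φ g₂ → y ∈ D.Y → D.ls ψ y = D.ls φ D.b → g₂ ∉ D.K ψ

/-- [PA] The pairing stage. -/
def S_PA : Prop :=
  ∀ (d k n : ℕ) (V J : Type) [Fintype V] [DecidableEq V] [Fintype J] [DecidableEq J]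
    (D : Design d k n V J) (F S : Finset (Finset ℕ)), D.P1 F S →
    ∃ s : Finset ℕ, s.card = k ∧ s ∉ F ∧ s ∉ S ∧
      ∀ g : Finset ℕ, g.card = k → g ∉ F → g ∉ S → g ≠ s →
        D.P1 (insert g F) (insert s S) ∨ D.P2 (insert g F) (insert s S)

/-- [ST1] The first two moves: after `g₁`, `e₁` (any `k`-set disjoint from `g₁`), `g₂` the pairing
stage starts. -/
def S_ST1 : Prop :=
  ∀ (d k n : ℕ) (V J : Type) [Fintype V] [DecidableEq V] [Fintype J] [DecidableEq J]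
    (D : Design d k n V J) (g₁ : Finset ℕ), g₁.card = k →
    ∃ s : Finset ℕ, s.card = k ∧ s ≠ g₁ ∧
      ∀ g : Finset ℕ, g.card = k → g ≠ g₁ → g ≠ s → D.P1 {g, g₁} {s}

end Pool.Agent.Helper65K9.SR
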